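import Pool.Agent.Helper19.TI.Kron

/-!
# The triangle inequality (MP_06d934_gt): multipliers, symmetries, and the single triangle

Four vertices `i, j, k, m` with the edges `a = ik`, `b = jk`, `c = ij`, `p = im`, `q = jm`, `r = km`.
-/

set_option autoImplicit false

namespace Pool.Agent.Helper19.TI

open PE

/-- The bracket at a vertex, times `2 x y z`: the edges `x, y, z` at the vertex lead to the vertices
`A, B, C`, and `u, v, w` are the edges `BC, CA, AB`; `X, Y, Z, U, V, W` are the weights. -/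
def vb (x y z u v w X Y Z U V W : ℝ) : ℝ :=
  x * y * z * (X + Y + Z) + x * y * z * (X + Y + Z) + U * x * (u * u - (y - z) * (y - z)) +
    V * y * (v * v - (z - x) * (z - x)) + W * z * (w * w - (x - y) * (x - y))

/-- `vb` as an expression. -/
def vbP (x y z u v w X Y Z U V W : PE) : PE :=
  x * y * z * (X + Y + Z) + x * y * z * (X + Y + Z) + U * x * (u * u - (y - z) * (y - z)) +
    V * y * (v * v - (z - x) * (z - x)) + W * z * (w * w - (x - y) * (x - y))

theorem ev_vbP (s : ℕ → ℝ) (x y z u v w X Y Z U V W : PE) :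
    ev s (vbP x y z u v w X Y Z U V W) = vb (ev s x) (ev s y) (ev s z) (ev s u) (ev s v) (ev s w)
      (ev s X) (ev s Y) (ev s Z) (ev s U) (ev s V) (ev s W) := rfl

/-- The bracket at `m` for the multiplier of the triangle `(i, j; k)`. -/
def H (a b c p q r : ℝ) : ℝ :=
  a * b * c * r * (c * c - (p - q) * (p - q)) + a * b * c * r * (c * c - (p - q) * (p - q)) -
    b * q * (c * c + a * a - b * b) * (a * a - (p - r) * (p - r)) -
    a * p * (c * c + b * b - a * a) * (b * b - (q - r) * (q - r))

/-- `H` as an expression. -/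
def HP (a b c p q r : PE) : PE :=
  a * b * c * r * (c * c - (p - q) * (p - q)) + a * b * c * r * (c * c - (p - q) * (p - q)) -
    b * q * (c * c + a * a - b * b) * (a * a - (p - r) * (p - r)) -
    a * p * (c * c + b * b - a * a) * (b * b - (q - r) * (q - r))

theorem ev_HP (s : ℕ → ℝ) (a b c p q r : PE) :
    ev s (HP a b c p q r) = H (ev s a) (ev s b) (ev s c) (ev s p) (ev s q) (ev s r) := rfl

/-- The values of the variables, as a list. -/
def yl (l : List ℝ) (i : ℕ) : ℝ := l.getD i 0

theorem yl_nonneg (l : List ℝ) (h : ∀ x ∈ l, 0 ≤ x) (i : ℕ) : 0 ≤ yl l i := by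
  unfold yl
  rcases Nat.lt_or_ge i l.length with hi | hi
  · rw [List.getD_eq_getElem _ _ hi]
    exact h _ (List.getElem_mem hi)
  · rw [List.getD_eq_default _ _ hi]

/-- There is a multiplier. -/
def Good (a b c p q r : ℝ) : Prop := ∃ wa wb wc wp wq wr : ℝ,
  wa * a + wb * b + wc * c + wp * p + wq * q + wr * r = 0 ∧
  0 ≤ vb c a p r q b wc wa wp wr wq wb ∧
  0 ≤ vb c b q r p a wc wb wq wr wp wa ∧
  0 ≤ vb a b r q p c wa wb wr wq wp wc ∧
  0 ≤ vb p q r b a c wp wq wr wb wa wc ∧
  0 < vb c a p r q b wc wa wp wr wq wb + vb c b q r p a wc wb wq wr wp wa +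
    vb a b r q p c wa wb wr wq wp wc + vb p q r b a c wp wq wr wb wa wc

variable {a b c p q r : ℝ}

theorem Good.ij (h : Good a b c p q r) : Good b a c q p r := by
  obtain ⟨wa, wb, wc, wp, wq, wr, h0, h1, h2, h3, h4, h5⟩ := h
  have e3 : vb b a r p q c wb wa wr wp wq wc = vb a b r q p c wa wb wr wq wp wc := by
    unfold vb; ring
  have e4 : vb q p r a b c wq wp wr wa wb wc = vb p q r b a c wp wq wr wb wa wc := by
    unfold vb; ring
  refine ⟨wb, wa, wc, wq, wp, wr, by linarith, h2, h1, ?_, ?_, ?_⟩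
  · rw [e3]; exact h3
  · rw [e4]; exact h4
  · rw [e3, e4]; linarith

theorem Good.km (h : Good a b c p q r) : Good p q c a b r := by
  obtain ⟨wa, wb, wc, wp, wq, wr, h0, h1, h2, h3, h4, h5⟩ := h
  have e1 : vb c p a r b q wc wp wa wr wb wq = vb c a p r q b wc wa wp wr wq wb := by
    unfold vb; ring
  have e2 : vb c q b r a p wc wq wb wr wa wp = vb c b q r p a wc wb wq wr wp wa := by
    unfold vb; ring
  refine ⟨wp, wq, wc, wa, wb, wr, by linarith, ?_, ?_, h4, h3, ?_⟩
  · rw [e1]; exact h1
  · rw [e2]; exact h2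
  · rw [e1, e2]; linarith

theorem Good.jk (h : Good a b c p q r) : Good c b a p r q := by
  obtain ⟨wa, wb, wc, wp, wq, wr, h0, h1, h2, h3, h4, h5⟩ := h
  have e1 : vb a c p q r b wa wc wp wq wr wb = vb c a p r q b wc wa wp wr wq wb := by
    unfold vb; ring
  have e2 : vb a b r q p c wa wb wr wq wp wc = vb a b r q p c wa wb wr wq wp wc := rfl
  have e4 : vb p r q b c a wp wr wq wb wc wa = vb p q r b a c wp wq wr wb wa wc := by
    unfold vb; ring
  refine ⟨wc, wb, wa, wp, wr, wq, by linarith, ?_, h3, h2, ?_, ?_⟩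
  · rw [e1]; exact h1
  · rw [e4]; exact h4
  · rw [e1, e4]; linarith

theorem Good.scale (h : Good a b c p q r) {t : ℝ} (ht : 0 < t) :
    Good (t * a) (t * b) (t * c) (t * p) (t * q) (t * r) := by
  obtain ⟨wa, wb, wc, wp, wq, wr, h0, h1, h2, h3, h4, h5⟩ := h
  have e : ∀ x y z u v w X Y Z U V W : ℝ,
      vb (t * x) (t * y) (t * z) (t * u) (t * v) (t * w) X Y Z U V W =
        t ^ 3 * vb x y z u v w X Y Z U V W := by
    intros; unfold vb; ring
  have ht3 : 0 < t ^ 3 := by positivity
  refine ⟨wa, wb, wc, wp, wq, wr, ?_, ?_, ?_, ?_, ?_, ?_⟩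
  · have : wa * (t * a) + wb * (t * b) + wc * (t * c) + wp * (t * p) + wq * (t * q) +
        wr * (t * r) = t * (wa * a + wb * b + wc * c + wp * p + wq * q + wr * r) := by ring
    rw [this, h0, mul_zero]
  · rw [e]; exact mul_nonneg ht3.le h1
  · rw [e]; exact mul_nonneg ht3.le h2
  · rw [e]; exact mul_nonneg ht3.le h3
  · rw [e]; exact mul_nonneg ht3.le h4
  · rw [e, e, e, e, ← mul_add, ← mul_add, ← mul_add]; exact mul_pos ht3 h5

/-- One triangle. -/
theorem good_of_H (ha : 0 < a) (hb : 0 < b) (hc : 0 < c) (hp : 0 < p) (hq : 0 < q) (hr : 0 < r)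
    (h : a + b < c) (hH : 0 ≤ H a b c p q r) : Good a b c p q r := by
  have h1 : 0 < (c - a) * (c - a) - b * b := by nlinarith
  have h2 : 0 < (c - b) * (c - b) - a * a := by nlinarith
  have h3 : 0 < c * c - (a - b) * (a - b) := by nlinarith
  have e1 : vb c a p r q b (a * b * c + a * b * c) (-(b * (c * c + a * a - b * b))) 0 0 0
      (-(a * (c * c + b * b - a * a))) =
      p * a * (((c - a) * (c - a) - b * b) * ((c - b) * (c - b) - a * a)) := by
    unfold vb; ring
  have e2 : vb c b q r p a (a * b * c + a * b * c) (-(a * (c * c + b * b - a * a))) 0 0 0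
      (-(b * (c * c + a * a - b * b))) =
      q * b * (((c - a) * (c - a) - b * b) * ((c - b) * (c - b) - a * a)) := by
    unfold vb; ring
  have e3 : vb a b r q p c (-(b * (c * c + a * a - b * b))) (-(a * (c * c + b * b - a * a))) 0 0 0
      (a * b * c + a * b * c) =
      2 * a * b * r * ((c - a - b) * (c * c - (a - b) * (a - b))) := by
    unfold vb; ring
  have e4 : vb p q r b a c 0 0 0 (-(a * (c * c + b * b - a * a))) (-(b * (c * c + a * a - b * b)))
      (a * b * c + a * b * c) = H a b c p q r := by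
    unfold vb H; ring
  have p1 : 0 < p * a * (((c - a) * (c - a) - b * b) * ((c - b) * (c - b) - a * a)) := by
    positivity
  have p2 : 0 < q * b * (((c - a) * (c - a) - b * b) * ((c - b) * (c - b) - a * a)) := by
    positivity
  have p3 : 0 < 2 * a * b * r * ((c - a - b) * (c * c - (a - b) * (a - b))) := by
    have : 0 < c - a - b := by linarith
    positivity
  refine ⟨-(b * (c * c + a * a - b * b)), -(a * (c * c + b * b - a * a)), a * b * c + a * b * c,
    0, 0, 0, by ring, ?_, ?_, ?_, ?_, ?_⟩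
  · rw [e1]; exact p1.le
  · rw [e2]; exact p2.le
  · rw [e3]; exact p3.le
  · rw [e4]; exact hH
  · rw [e1, e2, e3, e4]; linarith

theorem H_ij : H b a c q p r = H a b c p q r := by unfold H; ring

/-- The trivial case. -/
theorem good_triv (ha : 0 < a) (hb : 0 < b) (hc : 0 < c) (hp : 0 < p) (hq : 0 < q) (hr : 0 < r)
    (h : a + b < c) (hQ : a + r ≤ p ∨ a + p ≤ r) (hR : b + r ≤ q ∨ b + q ≤ r)
    (hP1 : p ≤ c + q) (hP2 : q ≤ c + p) : Good a b c p q r := by
  refine good_of_H ha hb hc hp hq hr h ?_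
  have h1 : 0 ≤ c * c - (p - q) * (p - q) := by nlinarith
  have h2 : 0 ≤ (p - r) * (p - r) - a * a := by
    rcases hQ with h | h <;> nlinarith
  have h3 : 0 ≤ (q - r) * (q - r) - b * b := by
    rcases hR with h | h <;> nlinarith
  have h4 : 0 ≤ c * c + a * a - b * b := by nlinarith
  have h5 : 0 ≤ c * c + b * b - a * a := by nlinarith
  have e : H a b c p q r = 2 * (a * b * c * r) * (c * c - (p - q) * (p - q)) +
      b * q * ((c * c + a * a - b * b) * ((p - r) * (p - r) - a * a)) +
      a * p * ((c * c + b * b - a * a) * ((q - r) * (q - r) - b * b)) := by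
    unfold H; ring
  rw [e]
  positivity

end Pool.Agent.Helper19.TI
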