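import Pool.Agent.Helper19.TI.Data

/-!
# The chain: multipliers
-/

set_option autoImplicit false

namespace Pool.Agent.Helper19.TI

open PE

theorem chk_i : chk [9, 7, 10, 8, 8] 32 Ti = true := by decide +kernel

theorem chk_j : chk [7, 7, 8, 8, 7] 32 Tj = true := by decide +kernel

theorem chk_k : chk [7, 7, 8, 8, 7] 32 Tk = true := by decide +kernel

theorem chk_m : chk [7, 9, 8, 10, 8] 32 Tm = true := by decide +kernel

theorem ev_P0 (s : ℕ → ℝ) : ev s (P 0) = 0 := by simp [P, ev]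

theorem ev_P1 (s : ℕ → ℝ) : ev s (P 1) = 1 := by simp [P, ev]

theorem chain_one {a q e f d : ℝ} (ha : 0 < a) (hq : 0 < q) (he : 0 < e) (hf : 0 < f)
    (hd : 0 ≤ d) (h1 : H a 1 (a + 1 + e) (a + 1 + q + e + f + d) q (1 + q + f) < 0)
    (h2 : H 1 q (1 + q + f) a (a + 1 + q + e + f + d) (a + 1 + e) < 0)
    (h3 : H a (1 + q + f) (a + 1 + q + e + f + d) (a + 1 + e) q 1 < 0)
    (h4 : H (a + 1 + e) q (a + 1 + q + e + f + d) a (1 + q + f) 1 < 0) :
    Good a 1 (a + 1 + e) (a + 1 + q + e + f + d) q (1 + q + f) := by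
  have hy : ∀ i, 0 ≤ yl [a, q, e, f, d] i := by
    refine yl_nonneg _ fun x hx => ?_
    simp only [List.mem_cons, List.not_mem_nil, or_false] at hx
    rcases hx with rfl | rfl | rfl | rfl | rfl
    · exact ha.le
    · exact hq.le
    · exact he.le
    · exact hf.le
    · exact hd
  obtain ⟨s, hs⟩ : ∃ s, s = yl [a, q, e, f, d] := ⟨_, rfl⟩
  have ea : ev s xa = a := by rw [hs]; rfl
  have eb : ev s xb = 1 := ev_P1 s
  have eq : ev s xq = q := by rw [hs]; rfl
  have ee : ev s (v 2) = e := by rw [hs]; rfl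
  have ec : ev s xc = a + 1 + e := by
    have : ev s xc = ev s (v 0) + ev s (P 1) + ev s (v 2) := rfl
    rw [this, ev_P1, hs]; rfl
  have er : ev s xr = 1 + q + f := by
    have : ev s xr = ev s (P 1) + ev s (v 1) + ev s (v 3) := rfl
    rw [this, ev_P1, hs]; rfl
  have ep : ev s xp = a + 1 + q + e + f + d := by
    have : ev s xp = ev s (v 0) + ev s (P 1) + ev s (v 1) + ev s (v 2) + ev s (v 3) +
      ev s (v 4) := rfl
    rw [this, ev_P1, hs]; rfl
  rw [← hs] at hy
  have g1 : ev s F1 < 0 := by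
    have : ev s F1 = H (ev s xa) (ev s xb) (ev s xc) (ev s xp) (ev s xq) (ev s xr) := rfl
    rw [this, ea, eb, ec, ep, eq, er]; exact h1
  have g2 : ev s F2 < 0 := by
    have : ev s F2 = H (ev s xb) (ev s xq) (ev s xr) (ev s xa) (ev s xp) (ev s xc) := rfl
    rw [this, ea, eb, ec, ep, eq, er]; exact h2
  have g3 : ev s F3 < 0 := by
    have : ev s F3 = H (ev s xa) (ev s xr) (ev s xp) (ev s xc) (ev s xq) (ev s xb) := rfl
    rw [this, ea, eb, ec, ep, eq, er]; exact h3
  have g4 : ev s F4 < 0 := by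
    have : ev s F4 = H (ev s xc) (ev s xq) (ev s xp) (ev s xa) (ev s xr) (ev s xb) := rfl
    rw [this, ea, eb, ec, ep, eq, er]; exact h4
  have t : ∀ S F : PE, nn S = true → ev s F < 0 → ev s S * ev s F ≤ 0 := fun S F hS hF =>
    mul_nonpos_of_nonneg_of_nonpos (nn_nonneg hy S hS) hF.le
  -- i
  have ki : 0 < vb (ev s xc) (ev s xa) (ev s xp) (ev s xr) (ev s xq) (ev s xb) (ev s (P 0))
      (ev s W03) (ev s W02) (ev s (P 0)) (ev s W12) (ev s W31) := by
    have h := chk_nonneg chk_i hy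
    have e1 : ev s Ti = vb (ev s xc) (ev s xa) (ev s xp) (ev s xr) (ev s xq) (ev s xb)
      (ev s (P 0)) (ev s W03) (ev s W02) (ev s (P 0)) (ev s W12) (ev s W31) +
      ev s S01 * ev s F1 + ev s S02 * ev s F2 + ev s S03 * ev s F3 + ev s S04 * ev s F4 -
      ev s (v 2) * ev s (v 2) * ev s (v 2) := rfl
    rw [e1, ee] at h
    have t1 := t S01 F1 (by decide +kernel) g1
    have t2 := t S02 F2 (by decide +kernel) g2
    have t3 := t S03 F3 (by decide +kernel) g3
    have t4 := t S04 F4 (by decide +kernel) g4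
    have : 0 < e * e * e := by positivity
    linarith
  have kj : 0 ≤ vb (ev s xc) (ev s xb) (ev s xq) (ev s xr) (ev s xp) (ev s xa) (ev s (P 0))
      (ev s W31) (ev s W12) (ev s (P 0)) (ev s W02) (ev s W03) := by
    have h := chk_nonneg chk_j hy
    have e1 : ev s Tj = vb (ev s xc) (ev s xb) (ev s xq) (ev s xr) (ev s xp) (ev s xa)
      (ev s (P 0)) (ev s W31) (ev s W12) (ev s (P 0)) (ev s W02) (ev s W03) +
      ev s (ren S31) * ev s F2 + ev s (ren S32) * ev s F1 + ev s (ren S33) * ev s F4 +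
      ev s (ren S34) * ev s F3 := rfl
    rw [e1] at h
    have t1 := t (ren S31) F2 (by decide +kernel) g2
    have t2 := t (ren S32) F1 (by decide +kernel) g1
    have t3 := t (ren S33) F4 (by decide +kernel) g4
    have t4 := t (ren S34) F3 (by decide +kernel) g3
    linarith
  have kk : 0 ≤ vb (ev s xa) (ev s xb) (ev s xr) (ev s xq) (ev s xp) (ev s xc) (ev s W03)
      (ev s W31) (ev s (P 0)) (ev s W12) (ev s W02) (ev s (P 0)) := by
    have h := chk_nonneg chk_k hy
    have e1 : ev s Tk = vb (ev s xa) (ev s xb) (ev s xr) (ev s xq) (ev s xp) (ev s xc)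
      (ev s W03) (ev s W31) (ev s (P 0)) (ev s W12) (ev s W02) (ev s (P 0)) +
      ev s S31 * ev s F1 + ev s S32 * ev s F2 + ev s S33 * ev s F3 + ev s S34 * ev s F4 := rfl
    rw [e1] at h
    have t1 := t S31 F1 (by decide +kernel) g1
    have t2 := t S32 F2 (by decide +kernel) g2
    have t3 := t S33 F3 (by decide +kernel) g3
    have t4 := t S34 F4 (by decide +kernel) g4
    linarith
  have km : 0 ≤ vb (ev s xp) (ev s xq) (ev s xr) (ev s xb) (ev s xa) (ev s xc) (ev s W02)
      (ev s W12) (ev s (P 0)) (ev s W31) (ev s W03) (ev s (P 0)) := by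
    have h := chk_nonneg chk_m hy
    have e1 : ev s Tm = vb (ev s xp) (ev s xq) (ev s xr) (ev s xb) (ev s xa) (ev s xc)
      (ev s W02) (ev s W12) (ev s (P 0)) (ev s W31) (ev s W03) (ev s (P 0)) +
      ev s (ren S01) * ev s F2 + ev s (ren S02) * ev s F1 + ev s (ren S03) * ev s F4 +
      ev s (ren S04) * ev s F3 := rfl
    rw [e1] at h
    have t1 := t (ren S01) F2 (by decide +kernel) g2
    have t2 := t (ren S02) F1 (by decide +kernel) g1
    have t3 := t (ren S03) F4 (by decide +kernel) g4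
    have t4 := t (ren S04) F3 (by decide +kernel) g3
    linarith
  have e31 : ev s W31 = ev s (P 0) - (ev s W03 * ev s xa + ev s W12 * ev s xq +
    ev s W02 * ev s xp) := rfl
  rw [ev_P0] at ki kj kk km e31
  rw [ea, eb, ec, ep, eq, er] at ki kj kk km
  rw [ea, eq, ep] at e31
  refine ⟨ev s W03, ev s W31, 0, ev s W02, ev s W12, 0, ?_, ki.le, kj, kk, km, ?_⟩
  · rw [e31]; ring
  · linarith

end Pool.Agent.Helper19.TI
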