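import Pool.Agent.Helper19.TI.Base

/-!
# The cones of the case distinction

Every cone is a union of at most two simplicial cones; the coordinates `y0, ..., y5` belong to the
extreme rays.
-/

set_option autoImplicit false

namespace Pool.Agent.Helper19.TI

open PE

variable {a b c p q r : ℝ}

theorem sx_none0 {y0 y1 y2 y3 y4 y5 : ℝ} (h0 : 0 ≤ y0) (h1 : 0 ≤ y1) (h2 : 0 ≤ y2)
    (h3 : 0 ≤ y3) (h4 : 0 ≤ y4) (h5 : 0 ≤ y5) :
    0 ≤ H (y4 + y5) (y2 + y3) (y1 + y1 + y2 + y3 + y4 + y5) (y0 + y1 + y3 + y5) (y0 + y1 + y2 + y4) (y0 + y1 + y3 + y4) := by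
  have hc : chk [4, 6, 5, 6, 6, 5] 19 (HP (v 4 + v 5) (v 2 + v 3) (v 1 + v 1 + v 2 + v 3 + v 4 + v 5) (v 0 + v 1 + v 3 + v 5) (v 0 + v 1 + v 2 + v 4) (v 0 + v 1 + v 3 + v 4)) = true := by
    decide +kernel
  have h := chk_nonneg hc (yl_nonneg [y0, y1, y2, y3, y4, y5] fun x hx => by
    simp only [List.mem_cons, List.not_mem_nil, or_false] at hx
    rcases hx with rfl | rfl | rfl | rfl | rfl | rfl <;> assumption)
  exact h

theorem cone_none (h1 : a + b ≤ c) (h2 : c ≤ p + q) (h3 : p ≤ a + r) (h4 : r ≤ a + p) (h5 : q ≤ b + r) (h6 : r ≤ b + q) :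
    0 ≤ H a b c p q r := by
  have k0 : 0 ≤ -c / 2 + p / 2 + q / 2 := by linarith
  have k1 : 0 ≤ -a / 2 - b / 2 + c / 2 := by linarith
  have k2 : 0 ≤ b / 2 + q / 2 - r / 2 := by linarith
  have k3 : 0 ≤ b / 2 - q / 2 + r / 2 := by linarith
  have k4 : 0 ≤ a / 2 - p / 2 + r / 2 := by linarith
  have k5 : 0 ≤ a / 2 + p / 2 - r / 2 := by linarith
  have h := sx_none0 k0 k1 k2 k3 k4 k5
  have ea : (a / 2 - p / 2 + r / 2) + (a / 2 + p / 2 - r / 2) = a := by ring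
  have eb : (b / 2 + q / 2 - r / 2) + (b / 2 - q / 2 + r / 2) = b := by ring
  have ec : (-a / 2 - b / 2 + c / 2) + (-a / 2 - b / 2 + c / 2) + (b / 2 + q / 2 - r / 2) + (b / 2 - q / 2 + r / 2) + (a / 2 - p / 2 + r / 2) + (a / 2 + p / 2 - r / 2) = c := by ring
  have ep : (-c / 2 + p / 2 + q / 2) + (-a / 2 - b / 2 + c / 2) + (b / 2 - q / 2 + r / 2) + (a / 2 + p / 2 - r / 2) = p := by ring
  have eq : (-c / 2 + p / 2 + q / 2) + (-a / 2 - b / 2 + c / 2) + (b / 2 + q / 2 - r / 2) + (a / 2 - p / 2 + r / 2) = q := by ring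
  have er : (-c / 2 + p / 2 + q / 2) + (-a / 2 - b / 2 + c / 2) + (b / 2 - q / 2 + r / 2) + (a / 2 - p / 2 + r / 2) = r := by ring
  rw [ea, eb, ec, ep, eq, er] at h
  exact h

theorem sx_p30 {y0 y1 y2 y3 y4 y5 : ℝ} (h0 : 0 ≤ y0) (h1 : 0 ≤ y1) (h2 : 0 ≤ y2)
    (h3 : 0 ≤ y3) (h4 : 0 ≤ y4) (h5 : 0 ≤ y5) :
    0 ≤ H (y4 + y5) (y2 + y3) (y0 + y1 + y1 + y2 + y3 + y4 + y5) (y1 + y3 + y5) (y1 + y2 + y4) (y1 + y3 + y4)
      + H (y1 + y3 + y5) (y1 + y2 + y4) (y0 + y1 + y1 + y2 + y3 + y4 + y5) (y4 + y5) (y2 + y3) (y1 + y3 + y4) := by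
  have hc : chk [4, 7, 5, 6, 6, 5] 19 (HP (v 4 + v 5) (v 2 + v 3) (v 0 + v 1 + v 1 + v 2 + v 3 + v 4 + v 5) (v 1 + v 3 + v 5) (v 1 + v 2 + v 4) (v 1 + v 3 + v 4) + HP (v 1 + v 3 + v 5) (v 1 + v 2 + v 4) (v 0 + v 1 + v 1 + v 2 + v 3 + v 4 + v 5) (v 4 + v 5) (v 2 + v 3) (v 1 + v 3 + v 4)) = true := by
    decide +kernel
  have h := chk_nonneg hc (yl_nonneg [y0, y1, y2, y3, y4, y5] fun x hx => by
    simp only [List.mem_cons, List.not_mem_nil, or_false] at hx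
    rcases hx with rfl | rfl | rfl | rfl | rfl | rfl <;> assumption)
  exact h

theorem sx_p31 {y0 y1 y2 y3 y4 y5 : ℝ} (h0 : 0 ≤ y0) (h1 : 0 ≤ y1) (h2 : 0 ≤ y2)
    (h3 : 0 ≤ y3) (h4 : 0 ≤ y4) (h5 : 0 ≤ y5) :
    0 ≤ H (y3 + y4 + y5) (y1 + y2 + y5) (y0 + y1 + y2 + y3 + y4 + y5 + y5) (y2 + y4) (y1 + y3) (y2 + y3 + y5)
      + H (y2 + y4) (y1 + y3) (y0 + y1 + y2 + y3 + y4 + y5 + y5) (y3 + y4 + y5) (y1 + y2 + y5) (y2 + y3 + y5) := by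
  have hc : chk [4, 5, 6, 6, 5, 7] 19 (HP (v 3 + v 4 + v 5) (v 1 + v 2 + v 5) (v 0 + v 1 + v 2 + v 3 + v 4 + v 5 + v 5) (v 2 + v 4) (v 1 + v 3) (v 2 + v 3 + v 5) + HP (v 2 + v 4) (v 1 + v 3) (v 0 + v 1 + v 2 + v 3 + v 4 + v 5 + v 5) (v 3 + v 4 + v 5) (v 1 + v 2 + v 5) (v 2 + v 3 + v 5)) = true := by
    decide +kernel
  have h := chk_nonneg hc (yl_nonneg [y0, y1, y2, y3, y4, y5] fun x hx => by
    simp only [List.mem_cons, List.not_mem_nil, or_false] at hx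
    rcases hx with rfl | rfl | rfl | rfl | rfl | rfl <;> assumption)
  exact h

theorem cone_p3 (h1 : a + b ≤ c) (h2 : p + q ≤ c) (h3 : p ≤ a + r) (h4 : a ≤ p + r) (h5 : r ≤ a + p) (h6 : q ≤ b + r) (h7 : b ≤ q + r) (h8 : r ≤ b + q) :
    0 ≤ H a b c p q r + H p q c a b r := by
  rcases le_total 0 (-a - b + p + q) with hs | hs
  · have k0 : 0 ≤ c - p - q := by linarith
    have k1 : 0 ≤ -a / 2 - b / 2 + p / 2 + q / 2 := by linarith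
    have k2 : 0 ≤ b / 2 + q / 2 - r / 2 := by linarith
    have k3 : 0 ≤ b / 2 - q / 2 + r / 2 := by linarith
    have k4 : 0 ≤ a / 2 - p / 2 + r / 2 := by linarith
    have k5 : 0 ≤ a / 2 + p / 2 - r / 2 := by linarith
    have h := sx_p30 k0 k1 k2 k3 k4 k5
    have ea : (a / 2 - p / 2 + r / 2) + (a / 2 + p / 2 - r / 2) = a := by ring
    have eb : (b / 2 + q / 2 - r / 2) + (b / 2 - q / 2 + r / 2) = b := by ring
    have ec : (c - p - q) + (-a / 2 - b / 2 + p / 2 + q / 2) + (-a / 2 - b / 2 + p / 2 + q / 2) + (b / 2 + q / 2 - r / 2) + (b / 2 - q / 2 + r / 2) + (a / 2 - p / 2 + r / 2) + (a / 2 + p / 2 - r / 2) = c := by ring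
    have ep : (-a / 2 - b / 2 + p / 2 + q / 2) + (b / 2 - q / 2 + r / 2) + (a / 2 + p / 2 - r / 2) = p := by ring
    have eq : (-a / 2 - b / 2 + p / 2 + q / 2) + (b / 2 + q / 2 - r / 2) + (a / 2 - p / 2 + r / 2) = q := by ring
    have er : (-a / 2 - b / 2 + p / 2 + q / 2) + (b / 2 - q / 2 + r / 2) + (a / 2 - p / 2 + r / 2) = r := by ring
    rw [ea, eb, ec, ep, eq, er] at h
    exact h
  · have k0 : 0 ≤ -a - b + c := by linarith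
    have k1 : 0 ≤ b / 2 + q / 2 - r / 2 := by linarith
    have k2 : 0 ≤ -a / 2 + p / 2 + r / 2 := by linarith
    have k3 : 0 ≤ -b / 2 + q / 2 + r / 2 := by linarith
    have k4 : 0 ≤ a / 2 + p / 2 - r / 2 := by linarith
    have k5 : 0 ≤ a / 2 + b / 2 - p / 2 - q / 2 := by linarith
    have h := sx_p31 k0 k1 k2 k3 k4 k5
    have ea : (-b / 2 + q / 2 + r / 2) + (a / 2 + p / 2 - r / 2) + (a / 2 + b / 2 - p / 2 - q / 2) = a := by ring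
    have eb : (b / 2 + q / 2 - r / 2) + (-a / 2 + p / 2 + r / 2) + (a / 2 + b / 2 - p / 2 - q / 2) = b := by ring
    have ec : (-a - b + c) + (b / 2 + q / 2 - r / 2) + (-a / 2 + p / 2 + r / 2) + (-b / 2 + q / 2 + r / 2) + (a / 2 + p / 2 - r / 2) + (a / 2 + b / 2 - p / 2 - q / 2) + (a / 2 + b / 2 - p / 2 - q / 2) = c := by ring
    have ep : (-a / 2 + p / 2 + r / 2) + (a / 2 + p / 2 - r / 2) = p := by ring
    have eq : (b / 2 + q / 2 - r / 2) + (-b / 2 + q / 2 + r / 2) = q := by ring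
    have er : (-a / 2 + p / 2 + r / 2) + (-b / 2 + q / 2 + r / 2) + (a / 2 + b / 2 - p / 2 - q / 2) = r := by ring
    rw [ea, eb, ec, ep, eq, er] at h
    exact h

theorem sx_q10 {y0 y1 y2 y3 y4 y5 : ℝ} (h0 : 0 ≤ y0) (h1 : 0 ≤ y1) (h2 : 0 ≤ y2)
    (h3 : 0 ≤ y3) (h4 : 0 ≤ y4) (h5 : 0 ≤ y5) :
    0 ≤ (y0 + y1 + y2 + y4 + y5) * (y0 + y2 + y4) * H y5 (y3 + y4) (y1 + y2 + y2 + y3 + y4 + y5) (y0 + y1 + y2 + y4 + y5) (y0 + y2 + y3) (y0 + y2 + y4) + (y3 + y4) * (y1 + y2 + y2 + y3 + y4 + y5) * H y5 (y0 + y2 + y4) (y0 + y1 + y2 + y4 + y5) (y1 + y2 + y2 + y3 + y4 + y5) (y0 + y2 + y3) (y3 + y4) := by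
  have hc : chk [6, 6, 8, 6, 8, 6] 22 ((v 0 + v 1 + v 2 + v 4 + v 5) * (v 0 + v 2 + v 4) * HP (v 5) (v 3 + v 4) (v 1 + v 2 + v 2 + v 3 + v 4 + v 5) (v 0 + v 1 + v 2 + v 4 + v 5) (v 0 + v 2 + v 3) (v 0 + v 2 + v 4) + (v 3 + v 4) * (v 1 + v 2 + v 2 + v 3 + v 4 + v 5) * HP (v 5) (v 0 + v 2 + v 4) (v 0 + v 1 + v 2 + v 4 + v 5) (v 1 + v 2 + v 2 + v 3 + v 4 + v 5) (v 0 + v 2 + v 3) (v 3 + v 4)) = true := by
    decide +kernel
  have h := chk_nonneg hc (yl_nonneg [y0, y1, y2, y3, y4, y5] fun x hx => by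
    simp only [List.mem_cons, List.not_mem_nil, or_false] at hx
    rcases hx with rfl | rfl | rfl | rfl | rfl | rfl <;> assumption)
  exact h

theorem sx_q11 {y0 y1 y2 y3 y4 y5 : ℝ} (h0 : 0 ≤ y0) (h1 : 0 ≤ y1) (h2 : 0 ≤ y2)
    (h3 : 0 ≤ y3) (h4 : 0 ≤ y4) (h5 : 0 ≤ y5) :
    0 ≤ (y0 + y1 + y3 + y4 + y4 + y5) * (y0 + y3) * H y5 (y2 + y3 + y4) (y1 + y2 + y3 + y4 + y5) (y0 + y1 + y3 + y4 + y4 + y5) (y0 + y2 + y4) (y0 + y3) + (y2 + y3 + y4) * (y1 + y2 + y3 + y4 + y5) * H y5 (y0 + y3) (y0 + y1 + y3 + y4 + y4 + y5) (y1 + y2 + y3 + y4 + y5) (y0 + y2 + y4) (y2 + y3 + y4) := by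
  have hc : chk [6, 6, 6, 8, 8, 6] 22 ((v 0 + v 1 + v 3 + v 4 + v 4 + v 5) * (v 0 + v 3) * HP (v 5) (v 2 + v 3 + v 4) (v 1 + v 2 + v 3 + v 4 + v 5) (v 0 + v 1 + v 3 + v 4 + v 4 + v 5) (v 0 + v 2 + v 4) (v 0 + v 3) + (v 2 + v 3 + v 4) * (v 1 + v 2 + v 3 + v 4 + v 5) * HP (v 5) (v 0 + v 3) (v 0 + v 1 + v 3 + v 4 + v 4 + v 5) (v 1 + v 2 + v 3 + v 4 + v 5) (v 0 + v 2 + v 4) (v 2 + v 3 + v 4)) = true := by
    decide +kernel
  have h := chk_nonneg hc (yl_nonneg [y0, y1, y2, y3, y4, y5] fun x hx => by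
    simp only [List.mem_cons, List.not_mem_nil, or_false] at hx
    rcases hx with rfl | rfl | rfl | rfl | rfl | rfl <;> assumption)
  exact h

theorem cone_q1 (h1 : 0 ≤ a) (h2 : a + b ≤ c) (h3 : p ≤ c + q) (h4 : c ≤ p + q) (h5 : a + r ≤ p) (h6 : q ≤ b + r) (h7 : b ≤ q + r) (h8 : r ≤ b + q) :
    0 ≤ p * r * H a b c p q r + b * c * H a r p c q b := by
  rcases le_total 0 (-b + c - p + r) with hs | hs
  · have k0 : 0 ≤ -c / 2 + p / 2 + q / 2 := by linarith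
    have k1 : 0 ≤ -a + p - r := by linarith
    have k2 : 0 ≤ -b / 2 + c / 2 - p / 2 + r / 2 := by linarith
    have k3 : 0 ≤ b / 2 + q / 2 - r / 2 := by linarith
    have k4 : 0 ≤ b / 2 - q / 2 + r / 2 := by linarith
    have k5 : 0 ≤ a := by linarith
    have h := sx_q10 k0 k1 k2 k3 k4 k5
    have ea : a = a := by ring
    have eb : (b / 2 + q / 2 - r / 2) + (b / 2 - q / 2 + r / 2) = b := by ring
    have ec : (-a + p - r) + (-b / 2 + c / 2 - p / 2 + r / 2) + (-b / 2 + c / 2 - p / 2 + r / 2) + (b / 2 + q / 2 - r / 2) + (b / 2 - q / 2 + r / 2) + (a) = c := by ring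
    have ep : (-c / 2 + p / 2 + q / 2) + (-a + p - r) + (-b / 2 + c / 2 - p / 2 + r / 2) + (b / 2 - q / 2 + r / 2) + (a) = p := by ring
    have eq : (-c / 2 + p / 2 + q / 2) + (-b / 2 + c / 2 - p / 2 + r / 2) + (b / 2 + q / 2 - r / 2) = q := by ring
    have er : (-c / 2 + p / 2 + q / 2) + (-b / 2 + c / 2 - p / 2 + r / 2) + (b / 2 - q / 2 + r / 2) = r := by ring
    rw [ea, eb, ec, ep, eq, er] at h
    exact h
  · have k0 : 0 ≤ -b / 2 + q / 2 + r / 2 := by linarith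
    have k1 : 0 ≤ -a - b + c := by linarith
    have k2 : 0 ≤ c / 2 - p / 2 + q / 2 := by linarith
    have k3 : 0 ≤ b / 2 - q / 2 + r / 2 := by linarith
    have k4 : 0 ≤ b / 2 - c / 2 + p / 2 - r / 2 := by linarith
    have k5 : 0 ≤ a := by linarith
    have h := sx_q11 k0 k1 k2 k3 k4 k5
    have ea : a = a := by ring
    have eb : (c / 2 - p / 2 + q / 2) + (b / 2 - q / 2 + r / 2) + (b / 2 - c / 2 + p / 2 - r / 2) = b := by ring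
    have ec : (-a - b + c) + (c / 2 - p / 2 + q / 2) + (b / 2 - q / 2 + r / 2) + (b / 2 - c / 2 + p / 2 - r / 2) + (a) = c := by ring
    have ep : (-b / 2 + q / 2 + r / 2) + (-a - b + c) + (b / 2 - q / 2 + r / 2) + (b / 2 - c / 2 + p / 2 - r / 2) + (b / 2 - c / 2 + p / 2 - r / 2) + (a) = p := by ring
    have eq : (-b / 2 + q / 2 + r / 2) + (c / 2 - p / 2 + q / 2) + (b / 2 - c / 2 + p / 2 - r / 2) = q := by ring
    have er : (-b / 2 + q / 2 + r / 2) + (b / 2 - q / 2 + r / 2) = r := by ring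
    rw [ea, eb, ec, ep, eq, er] at h
    exact h

theorem sx_q30 {y0 y1 y2 y3 y4 y5 : ℝ} (h0 : 0 ≤ y0) (h1 : 0 ≤ y1) (h2 : 0 ≤ y2)
    (h3 : 0 ≤ y3) (h4 : 0 ≤ y4) (h5 : 0 ≤ y5) :
    0 ≤ (y0 + y4) * (y0 + y4) * H y5 (y2 + y3 + y4) (y1 + y2 + y3 + y4 + y5) (y0 + y4) (y0 + y1 + y2 + y3 + y5) (y0 + y1 + y3 + y3 + y4 + y5) + (y2 + y3 + y4) * (y2 + y3 + y4) * H y5 (y0 + y4) (y0 + y1 + y3 + y3 + y4 + y5) (y2 + y3 + y4) (y0 + y1 + y2 + y3 + y5) (y1 + y2 + y3 + y4 + y5) := by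
  have hc : chk [6, 6, 6, 8, 8, 6] 22 ((v 0 + v 4) * (v 0 + v 4) * HP (v 5) (v 2 + v 3 + v 4) (v 1 + v 2 + v 3 + v 4 + v 5) (v 0 + v 4) (v 0 + v 1 + v 2 + v 3 + v 5) (v 0 + v 1 + v 3 + v 3 + v 4 + v 5) + (v 2 + v 3 + v 4) * (v 2 + v 3 + v 4) * HP (v 5) (v 0 + v 4) (v 0 + v 1 + v 3 + v 3 + v 4 + v 5) (v 2 + v 3 + v 4) (v 0 + v 1 + v 2 + v 3 + v 5) (v 1 + v 2 + v 3 + v 4 + v 5)) = true := by
    decide +kernel
  have h := chk_nonneg hc (yl_nonneg [y0, y1, y2, y3, y4, y5] fun x hx => by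
    simp only [List.mem_cons, List.not_mem_nil, or_false] at hx
    rcases hx with rfl | rfl | rfl | rfl | rfl | rfl <;> assumption)
  exact h

theorem sx_q31 {y0 y1 y2 y3 y4 y5 : ℝ} (h0 : 0 ≤ y0) (h1 : 0 ≤ y1) (h2 : 0 ≤ y2)
    (h3 : 0 ≤ y3) (h4 : 0 ≤ y4) (h5 : 0 ≤ y5) :
    0 ≤ (y0 + y2 + y4) * (y0 + y2 + y4) * H y5 (y3 + y4) (y1 + y2 + y2 + y3 + y4 + y5) (y0 + y2 + y4) (y0 + y1 + y2 + y3 + y5) (y0 + y1 + y2 + y4 + y5) + (y3 + y4) * (y3 + y4) * H y5 (y0 + y2 + y4) (y0 + y1 + y2 + y4 + y5) (y3 + y4) (y0 + y1 + y2 + y3 + y5) (y1 + y2 + y2 + y3 + y4 + y5) := by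
  have hc : chk [6, 6, 8, 6, 8, 6] 22 ((v 0 + v 2 + v 4) * (v 0 + v 2 + v 4) * HP (v 5) (v 3 + v 4) (v 1 + v 2 + v 2 + v 3 + v 4 + v 5) (v 0 + v 2 + v 4) (v 0 + v 1 + v 2 + v 3 + v 5) (v 0 + v 1 + v 2 + v 4 + v 5) + (v 3 + v 4) * (v 3 + v 4) * HP (v 5) (v 0 + v 2 + v 4) (v 0 + v 1 + v 2 + v 4 + v 5) (v 3 + v 4) (v 0 + v 1 + v 2 + v 3 + v 5) (v 1 + v 2 + v 2 + v 3 + v 4 + v 5)) = true := by
    decide +kernel
  have h := chk_nonneg hc (yl_nonneg [y0, y1, y2, y3, y4, y5] fun x hx => by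
    simp only [List.mem_cons, List.not_mem_nil, or_false] at hx
    rcases hx with rfl | rfl | rfl | rfl | rfl | rfl <;> assumption)
  exact h

theorem cone_q3 (h1 : 0 ≤ a) (h2 : a + b ≤ c) (h3 : q ≤ c + p) (h4 : c ≤ p + q) (h5 : a + p ≤ r) (h6 : q ≤ b + r) (h7 : r ≤ b + q) :
    0 ≤ p * p * H a b c p q r + b * b * H a p r b q c := by
  rcases le_total 0 (b - c - p + r) with hs | hs
  · have k0 : 0 ≤ -c / 2 + p / 2 + q / 2 := by linarith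
    have k1 : 0 ≤ -a - b + c := by linarith
    have k2 : 0 ≤ b / 2 + q / 2 - r / 2 := by linarith
    have k3 : 0 ≤ b / 2 - c / 2 - p / 2 + r / 2 := by linarith
    have k4 : 0 ≤ c / 2 + p / 2 - q / 2 := by linarith
    have k5 : 0 ≤ a := by linarith
    have h := sx_q30 k0 k1 k2 k3 k4 k5
    have ea : a = a := by ring
    have eb : (b / 2 + q / 2 - r / 2) + (b / 2 - c / 2 - p / 2 + r / 2) + (c / 2 + p / 2 - q / 2) = b := by ring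
    have ec : (-a - b + c) + (b / 2 + q / 2 - r / 2) + (b / 2 - c / 2 - p / 2 + r / 2) + (c / 2 + p / 2 - q / 2) + (a) = c := by ring
    have ep : (-c / 2 + p / 2 + q / 2) + (c / 2 + p / 2 - q / 2) = p := by ring
    have eq : (-c / 2 + p / 2 + q / 2) + (-a - b + c) + (b / 2 + q / 2 - r / 2) + (b / 2 - c / 2 - p / 2 + r / 2) + (a) = q := by ring
    have er : (-c / 2 + p / 2 + q / 2) + (-a - b + c) + (b / 2 - c / 2 - p / 2 + r / 2) + (b / 2 - c / 2 - p / 2 + r / 2) + (c / 2 + p / 2 - q / 2) + (a) = r := by ring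
    rw [ea, eb, ec, ep, eq, er] at h
    exact h
  · have k0 : 0 ≤ -c / 2 + p / 2 + q / 2 := by linarith
    have k1 : 0 ≤ -a - p + r := by linarith
    have k2 : 0 ≤ -b / 2 + c / 2 + p / 2 - r / 2 := by linarith
    have k3 : 0 ≤ b / 2 + q / 2 - r / 2 := by linarith
    have k4 : 0 ≤ b / 2 - q / 2 + r / 2 := by linarith
    have k5 : 0 ≤ a := by linarith
    have h := sx_q31 k0 k1 k2 k3 k4 k5
    have ea : a = a := by ring
    have eb : (b / 2 + q / 2 - r / 2) + (b / 2 - q / 2 + r / 2) = b := by ring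
    have ec : (-a - p + r) + (-b / 2 + c / 2 + p / 2 - r / 2) + (-b / 2 + c / 2 + p / 2 - r / 2) + (b / 2 + q / 2 - r / 2) + (b / 2 - q / 2 + r / 2) + (a) = c := by ring
    have ep : (-c / 2 + p / 2 + q / 2) + (-b / 2 + c / 2 + p / 2 - r / 2) + (b / 2 - q / 2 + r / 2) = p := by ring
    have eq : (-c / 2 + p / 2 + q / 2) + (-a - p + r) + (-b / 2 + c / 2 + p / 2 - r / 2) + (b / 2 + q / 2 - r / 2) + (a) = q := by ring
    have er : (-c / 2 + p / 2 + q / 2) + (-a - p + r) + (-b / 2 + c / 2 + p / 2 - r / 2) + (b / 2 - q / 2 + r / 2) + (a) = r := by ring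
    rw [ea, eb, ec, ep, eq, er] at h
    exact h

end Pool.Agent.Helper19.TI
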