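import Pool.Agent.Helper19.TI.Base

/-!
# The chain: data of the certificates

The four triangle inequalities `c > a + b`, `r > b + q`, `p > a + r`, `p > c + q` fail, `b = 1`,
`c = a + 1 + e`, `r = 1 + q + f`, `p = a + 1 + q + e + f + d`, `d ≥ 0`. The variables are
`a, q, e, f, d`.
-/

set_option autoImplicit false

namespace Pool.Agent.Helper19.TI

open PE

/-- A nonnegative constant. -/
def P (k : ℕ) : PE := PE.n (Int.ofNat k)

/-- A negative constant, `-(k + 1)`. -/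
def N (k : ℕ) : PE := PE.n (Int.negSucc k)

/-- Sum. -/
def A (x y : PE) : PE := PE.add x y

/-- Product. -/
def M (x y : PE) : PE := PE.mul x y

/-- Data. -/
def W03 : PE :=
  A (A (A (M (v 1) (A (M (v 0) (A (N 44) (M (v 0) (A (N 726) (M (v 0) (A (N 1153) (M (v 0) (N
  415)))))))) (M (v 1) (A (M (v 0) (A (N 726) (M (v 0) (A (N 3167) (M (v 0) (N 1627)))))) (M (v
  1) (A (M (v 0) (A (N 1153) (M (v 0) (N 1627)))) (M (v 1) (M (v 0) (N 415))))))))) (M (v 2) (A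
  (M (v 1) (A (A (N 44) (M (v 0) (A (N 926) (M (v 0) (A (N 2018) (M (v 0) (N 901))))))) (M (v
  1) (A (A (N 726) (M (v 0) (A (N 3869) (M (v 0) (N 2957))))) (M (v 1) (A (A (N 1153) (M (v 0)
  (N 1928))) (M (v 1) (N 415)))))))) (M (v 2) (A (A (A (N 6) (M (v 0) (N 40))) (M (v 1) (A (A
  (N 257) (M (v 0) (A (N 1186) (M (v 0) (N 1057))))) (M (v 1) (A (A (N 1492) (M (v 0) (A (N
  2450) (M (v 0) (N 278))))) (M (v 1) (A (N 768) (M (v 0) (N 318))))))))) (M (v 2) (A (A (A (N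
  3) (M (v 0) (N 19))) (M (v 1) (A (A (P 45) (M (v 0) (A (N 762) (M (v 0) (N 119))))) (M (v 1)
  (A (A (N 659) (M (v 0) (N 512))) (M (v 1) (N 310))))))) (M (v 2) (A (A (A (N 2) (M (v 0) (N
  4))) (M (v 1) (A (A (N 13) (M (v 0) (N 120))) (M (v 1) (N 175))))) (M (v 2) (A (N 0) (M (v 1)
  (N 1))))))))))))) (M (v 3) (A (A (M (v 1) (A (M (v 0) (A (N 325) (M (v 0) (A (N 2117) (M (v
  0) (N 1600)))))) (M (v 1) (A (A (P 69) (M (v 0) (A (N 1144) (M (v 0) (N 3677))))) (M (v 1) (M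
  (v 0) (N 1785))))))) (M (v 2) (A (A (A (N 12) (M (v 0) (A (N 79) (M (v 0) (N 115))))) (M (v
  1) (A (A (N 272) (M (v 0) (A (N 3071) (M (v 0) (N 2149))))) (M (v 1) (A (A (N 1274) (M (v 0)
  (A (N 4240) (M (v 0) (N 119))))) (M (v 1) (A (N 1785) (M (v 0) (N 39))))))))) (M (v 2) (A (A
  (A (N 43) (M (v 0) (A (N 135) (M (v 0) (N 65))))) (M (v 1) (A (A (N 1119) (M (v 0) (A (N
  1149) (M (v 0) (N 362))))) (M (v 1) (A (A (N 1377) (M (v 0) (N 764))) (M (v 1) (N 448)))))))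
  (M (v 2) (A (A (A (N 110) (M (v 0) (N 120))) (M (v 1) (A (A (N 108) (M (v 0) (N 567))) (M (v
  1) (N 449))))) (M (v 2) (A (A (A (N 119) (M (v 0) (N 17))) (M (v 1) (N 98))) (M (v 2) (N
  17))))))))))) (M (v 3) (A (A (A (A (N 6) (M (v 0) (A (N 25) (M (v 0) (A (N 254) (M (v 0) (N
  237))))))) (M (v 1) (A (A (P 35) (M (v 0) (A (P 43) (M (v 0) (A (N 1908) (M (v 0) (N
  358))))))) (M (v 1) (A (P 119) (M (v 0) (A (N 1776) (M (v 0) (N 318))))))))) (M (v 2) (A (A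
  (A (P 12) (M (v 0) (A (N 297) (M (v 0) (N 151))))) (M (v 1) (A (A (P 23) (M (v 0) (A (N 2449)
  (M (v 0) (N 80))))) (M (v 1) (A (N 1436) (M (v 0) (N 207))))))) (M (v 2) (A (A (A (N 175) (M
  (v 0) (A (N 125) (M (v 0) (N 63))))) (M (v 1) (A (A (N 376) (M (v 0) (N 27))) (M (v 1) (N
  397))))) (M (v 2) (A (A (A (N 57) (M (v 0) (N 74))) (M (v 1) (P 7))) (M (v 2) (N 28)))))))))
  (M (v 3) (A (A (A (A (P 22) (M (v 0) (A (N 65) (M (v 0) (A (N 233) (M (v 0) (N 5))))))) (M (v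
  1) (A (A (N 62) (M (v 0) (A (N 331) (M (v 0) (N 327))))) (M (v 1) (A (P 115) (M (v 0) (N
  159))))))) (M (v 2) (A (A (A (N 93) (M (v 0) (A (N 351) (M (v 0) (P 53))))) (M (v 1) (A (A (N
  401) (M (v 0) (N 127))) (M (v 1) (N 106))))) (M (v 2) (A (A (A (N 70) (M (v 0) (P 31))) (M (v
  1) (N 1))) (M (v 2) (P 25))))))) (M (v 3) (A (A (A (A (N 62) (M (v 0) (A (N 27) (M (v 0) (N
  20))))) (M (v 1) (A (P 28) (M (v 0) (N 113))))) (M (v 2) (A (A (A (N 131) (M (v 0) (N 44)))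
  (M (v 1) (N 200))) (M (v 2) (N 52))))) (M (v 3) (A (A (A (N 7) (M (v 0) (N 15))) (M (v 2) (N
  89))) (M (v 3) (N 0))))))))))))) (M (v 4) (A (A (A (A (A (N 3) (M (v 0) (A (N 41) (M (v 0) (N
  74))))) (M (v 1) (A (A (P 90) (M (v 0) (A (P 231) (M (v 0) (A (N 1334) (M (v 0) (N 719)))))))
  (M (v 1) (A (A (P 314) (M (v 0) (A (N 1328) (M (v 0) (N 1869))))) (M (v 1) (A (A (N 269) (M
  (v 0) (N 1931))) (M (v 1) (N 415))))))))) (M (v 2) (A (A (A (N 6) (M (v 0) (A (N 143) (M (v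
  0) (N 262))))) (M (v 1) (A (A (P 13) (M (v 0) (A (N 1709) (M (v 0) (N 1341))))) (M (v 1) (A
  (A (N 1633) (M (v 0) (N 2131))) (M (v 1) (N 847))))))) (M (v 2) (A (A (A (N 120) (M (v 0) (A
  (N 285) (M (v 0) (N 88))))) (M (v 1) (A (A (N 414) (M (v 0) (A (N 1864) (M (v 0) (N 90)))))
  (M (v 1) (A (A (N 985) (M (v 0) (N 663))) (M (v 1) (N 318))))))) (M (v 2) (A (A (A (N 221) (M
  (v 0) (N 195))) (M (v 1) (A (A (N 675) (M (v 0) (N 301))) (M (v 1) (N 486))))) (M (v 2) (A (A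
  (A (N 175) (M (v 0) (N 19))) (M (v 1) (N 114))) (M (v 2) (N 19))))))))))) (M (v 3) (A (A (A
  (A (P 5) (M (v 0) (A (P 61) (M (v 0) (A (P 66) (M (v 0) (N 484))))))) (M (v 1) (A (A (P 94)
  (M (v 0) (A (P 951) (M (v 0) (N 2027))))) (M (v 1) (A (A (P 202) (M (v 0) (N 3726))) (M (v 1)
  (N 901))))))) (M (v 2) (A (A (A (N 120) (M (v 0) (A (N 391) (M (v 0) (N 1068))))) (M (v 1) (A
  (A (N 333) (M (v 0) (A (N 2302) (M (v 0) (N 93))))) (M (v 1) (A (N 1924) (M (v 0) (N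
  173))))))) (M (v 2) (A (A (A (N 264) (M (v 0) (A (N 771) (M (v 0) (N 102))))) (M (v 1) (A (A
  (P 91) (M (v 0) (N 631))) (M (v 1) (N 830))))) (M (v 2) (A (A (A (N 384) (M (v 0) (N 203)))
  (M (v 1) (N 303))) (M (v 2) (N 138))))))))) (M (v 3) (A (A (A (A (P 95) (M (v 0) (A (P 457)
  (M (v 0) (N 280))))) (M (v 1) (A (A (N 128) (M (v 0) (A (N 1751) (M (v 0) (N 703))))) (M (v
  1) (A (N 476) (M (v 0) (N 369))))))) (M (v 2) (A (A (A (P 102) (M (v 0) (A (N 569) (M (v 0)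
  (N 177))))) (M (v 1) (A (A (N 983) (M (v 0) (N 647))) (M (v 1) (N 390))))) (M (v 2) (A (A (A
  (P 27) (M (v 0) (N 339))) (M (v 1) (N 280))) (M (v 2) (N 106))))))) (M (v 3) (A (A (A (A (N
  254) (M (v 0) (A (N 216) (M (v 0) (N 211))))) (M (v 1) (A (A (N 188) (M (v 0) (N 804))) (M (v
  1) (N 56))))) (M (v 2) (A (A (A (P 49) (M (v 0) (N 364))) (M (v 1) (N 548))) (M (v 2) (P
  1))))) (M (v 3) (A (A (A (A (N 199) (M (v 0) (N 260))) (M (v 1) (N 93))) (M (v 2) (N 168)))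
  (M (v 3) (N 40))))))))))) (M (v 4) (A (A (A (A (A (P 211) (M (v 0) (A (P 263) (M (v 0) (P
  48))))) (M (v 1) (A (A (P 248) (M (v 0) (A (N 318) (M (v 0) (N 649))))) (M (v 1) (A (A (N
  307) (M (v 0) (N 1178))) (M (v 1) (N 490))))))) (M (v 2) (A (A (A (P 282) (M (v 0) (A (P 42)
  (M (v 0) (N 62))))) (M (v 1) (A (A (N 375) (M (v 0) (N 1188))) (M (v 1) (A (N 553) (M (v 0)
  (N 43))))))) (M (v 2) (A (A (A (N 121) (M (v 0) (N 248))) (M (v 1) (A (A (N 604) (M (v 0) (N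
  233))) (M (v 1) (N 482))))) (M (v 2) (A (A (A (N 270) (M (v 0) (N 3))) (M (v 1) (N 182))) (M
  (v 2) (N 23))))))))) (M (v 3) (A (A (A (A (P 305) (M (v 0) (A (P 730) (M (v 0) (N 447))))) (M
  (v 1) (A (A (P 94) (M (v 0) (A (N 1317) (M (v 0) (N 87))))) (M (v 1) (A (N 881) (M (v 0) (N
  43))))))) (M (v 2) (A (A (A (P 329) (M (v 0) (N 482))) (M (v 1) (A (A (N 350) (M (v 0) (N
  398))) (M (v 1) (N 218))))) (M (v 2) (A (A (A (N 220) (M (v 0) (N 278))) (M (v 1) (N 585)))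
  (M (v 2) (N 280))))))) (M (v 3) (A (A (A (A (N 120) (M (v 0) (A (N 58) (M (v 0) (N 175)))))
  (M (v 1) (A (A (N 466) (M (v 0) (N 678))) (M (v 1) (N 90))))) (M (v 2) (A (A (A (P 414) (M (v
  0) (N 295))) (M (v 1) (N 573))) (M (v 2) (N 112))))) (M (v 3) (A (A (A (A (N 219) (M (v 0) (N
  459))) (M (v 1) (N 280))) (M (v 2) (N 59))) (M (v 3) (N 117))))))))) (M (v 4) (A (A (A (A (A
  (P 60) (M (v 0) (A (P 150) (M (v 0) (N 68))))) (M (v 1) (A (A (N 289) (M (v 0) (N 293))) (M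
  (v 1) (N 249))))) (M (v 2) (A (A (A (N 25) (M (v 0) (N 199))) (M (v 1) (A (A (N 340) (M (v 0)
  (N 56))) (M (v 1) (N 43))))) (M (v 2) (A (A (A (N 151) (M (v 0) (N 21))) (M (v 1) (N 206)))
  (M (v 2) (N 25))))))) (M (v 3) (A (A (A (A (N 116) (M (v 0) (N 270))) (M (v 1) (A (N 465) (M
  (v 0) (N 100))))) (M (v 2) (A (A (A (P 9) (M (v 0) (N 55))) (M (v 1) (N 330))) (M (v 2) (N
  253))))) (M (v 3) (A (A (A (A (N 138) (M (v 0) (N 236))) (M (v 1) (N 166))) (M (v 2) (N 58)))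
  (M (v 3) (N 138))))))) (M (v 4) (A (A (A (A (A (N 29) (M (v 0) (N 78))) (M (v 1) (N 62))) (M
  (v 2) (A (A (N 46) (M (v 1) (N 37))) (M (v 2) (N 21))))) (M (v 3) (A (A (A (A (N 54) (M (v 0)
  (N 16))) (M (v 1) (N 35))) (M (v 2) (N 72))) (M (v 3) (N 77))))) (M (v 4) (A (N 9) (M (v 3)
  (N 16))))))))))))

/-- Data. -/
def W02 : PE :=
  A (A (A (M (v 1) (A (M (v 0) (A (P 45) (M (v 0) (A (P 727) (M (v 0) (A (P 1154) (M (v 0) (P
  416)))))))) (M (v 1) (A (M (v 0) (A (P 727) (M (v 0) (A (P 3168) (M (v 0) (P 1628)))))) (M (v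
  1) (A (M (v 0) (A (P 1154) (M (v 0) (P 1628)))) (M (v 1) (M (v 0) (P 416))))))))) (M (v 2) (A
  (M (v 1) (A (M (v 0) (A (P 326) (M (v 0) (A (P 1603) (M (v 0) (P 902)))))) (M (v 1) (A (M (v
  0) (A (P 2118) (M (v 0) (P 3110)))) (M (v 1) (M (v 0) (P 1601))))))) (M (v 2) (A (A (A (P 7)
  (M (v 0) (P 41))) (M (v 1) (A (A (P 26) (M (v 0) (A (N 113) (M (v 0) (P 850))))) (M (v 1) (A
  (A (P 255) (M (v 0) (A (P 1188) (M (v 0) (P 279))))) (M (v 1) (A (P 238) (M (v 0) (P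
  359))))))))) (M (v 2) (A (A (A (P 4) (M (v 0) (P 20))) (M (v 1) (A (A (N 48) (M (v 0) (A (N
  19) (M (v 0) (P 120))))) (M (v 1) (A (A (N 8) (M (v 0) (P 274))) (M (v 1) (P 6))))))) (M (v
  2) (A (A (A (P 3) (M (v 0) (P 5))) (M (v 1) (A (A (P 7) (M (v 0) (P 1))) (M (v 1) (P 15)))))
  (M (v 2) (A (P 1) (M (v 1) (P 1))))))))))))) (M (v 3) (A (A (M (v 1) (A (M (v 0) (A (P 326)
  (M (v 0) (A (P 2118) (M (v 0) (P 1601)))))) (M (v 1) (A (M (v 0) (A (P 1603) (M (v 0) (P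
  3110)))) (M (v 1) (M (v 0) (P 902))))))) (M (v 2) (A (A (A (P 13) (M (v 0) (A (P 80) (M (v 0)
  (P 116))))) (M (v 1) (A (A (P 80) (M (v 0) (A (P 1859) (M (v 0) (P 2270))))) (M (v 1) (A (P
  116) (M (v 0) (A (P 2270) (M (v 0) (P 160))))))))) (M (v 2) (A (A (A (P 6) (M (v 0) (A (P
  120) (M (v 0) (P 66))))) (M (v 1) (A (A (P 236) (M (v 0) (A (P 418) (M (v 0) (P 363))))) (M
  (v 1) (A (P 120) (M (v 0) (P 171))))))) (M (v 2) (A (A (A (P 8) (M (v 0) (P 127))) (M (v 1)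
  (A (A (P 22) (M (v 0) (P 192))) (M (v 1) (N 58))))) (M (v 2) (A (A (P 3) (M (v 0) (P 18))) (M
  (v 1) (P 89))))))))))) (M (v 3) (A (A (A (A (P 7) (M (v 0) (A (P 26) (M (v 0) (A (P 255) (M
  (v 0) (P 238))))))) (M (v 1) (A (A (P 41) (M (v 0) (A (N 113) (M (v 0) (A (P 1188) (M (v 0)
  (P 359))))))) (M (v 1) (M (v 0) (A (P 850) (M (v 0) (P 279)))))))) (M (v 2) (A (A (A (P 6) (M
  (v 0) (A (P 236) (M (v 0) (P 120))))) (M (v 1) (A (A (P 120) (M (v 0) (A (P 418) (M (v 0) (P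
  171))))) (M (v 1) (A (P 66) (M (v 0) (P 363))))))) (M (v 2) (A (A (A (P 20) (M (v 0) (A (N 7)
  (M (v 0) (P 64))))) (M (v 1) (A (A (N 7) (M (v 0) (N 171))) (M (v 1) (P 64))))) (M (v 2) (A
  (A (P 6) (M (v 0) (P 11))) (M (v 1) (N 35))))))))) (M (v 3) (A (A (A (A (P 4) (M (v 0) (A (N
  48) (M (v 0) (A (N 8) (M (v 0) (P 6))))))) (M (v 1) (A (A (P 20) (M (v 0) (A (N 19) (M (v 0)
  (P 274))))) (M (v 1) (M (v 0) (P 120)))))) (M (v 2) (A (A (A (P 8) (M (v 0) (A (P 22) (M (v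
  0) (N 58))))) (M (v 1) (A (P 127) (M (v 0) (P 192))))) (M (v 2) (A (A (P 6) (M (v 0) (N 35)))
  (M (v 1) (P 11))))))) (M (v 3) (A (A (A (A (P 3) (M (v 0) (A (P 7) (M (v 0) (P 15))))) (M (v
  1) (A (P 5) (M (v 0) (P 1))))) (M (v 2) (A (A (P 3) (M (v 0) (P 89))) (M (v 1) (P 18))))) (M
  (v 3) (A (P 1) (M (v 0) (P 1))))))))))))) (M (v 4) (A (A (A (A (A (P 4) (M (v 0) (A (P 42) (M
  (v 0) (P 75))))) (M (v 1) (A (A (P 42) (M (v 0) (A (N 121) (M (v 0) (A (P 1183) (M (v 0) (P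
  720))))))) (M (v 1) (A (A (P 75) (M (v 0) (A (P 1183) (M (v 0) (P 1454))))) (M (v 1) (M (v 0)
  (P 720)))))))) (M (v 2) (A (A (A (P 9) (M (v 0) (A (P 160) (M (v 0) (P 263))))) (M (v 1) (A
  (A (N 41) (M (v 0) (A (N 548) (M (v 0) (P 1074))))) (M (v 1) (A (A (N 33) (M (v 0) (P 931)))
  (M (v 1) (P 485))))))) (M (v 2) (A (A (A (P 16) (M (v 0) (A (P 280) (M (v 0) (P 89))))) (M (v
  1) (A (A (N 424) (M (v 0) (A (P 603) (M (v 0) (P 91))))) (M (v 1) (A (N 211) (M (v 0) (P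
  664))))))) (M (v 2) (A (A (A (P 12) (M (v 0) (P 196))) (M (v 1) (A (A (P 156) (M (v 0) (P
  148))) (M (v 1) (P 206))))) (M (v 2) (A (A (P 4) (M (v 0) (P 20))) (M (v 1) (P 40)))))))))))
  (M (v 3) (A (A (A (A (P 9) (M (v 0) (A (N 41) (M (v 0) (A (N 33) (M (v 0) (P 485))))))) (M (v
  1) (A (A (P 160) (M (v 0) (A (N 548) (M (v 0) (P 931))))) (M (v 1) (A (P 263) (M (v 0) (P
  1074))))))) (M (v 2) (A (A (A (P 36) (M (v 0) (A (P 120) (M (v 0) (P 801))))) (M (v 1) (A (A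
  (P 120) (M (v 0) (A (P 202) (M (v 0) (P 94))))) (M (v 1) (A (P 801) (M (v 0) (P 94))))))) (M
  (v 2) (A (A (A (P 34) (M (v 0) (A (P 224) (M (v 0) (P 103))))) (M (v 1) (A (A (N 373) (M (v
  0) (P 372))) (M (v 1) (P 178))))) (M (v 2) (A (A (P 19) (M (v 0) (P 101))) (M (v 1) (P
  40))))))))) (M (v 3) (A (A (A (A (P 16) (M (v 0) (A (N 424) (M (v 0) (N 211))))) (M (v 1) (A
  (A (P 280) (M (v 0) (A (P 603) (M (v 0) (P 664))))) (M (v 1) (A (P 89) (M (v 0) (P 91)))))))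
  (M (v 2) (A (A (A (P 34) (M (v 0) (A (N 373) (M (v 0) (P 178))))) (M (v 1) (A (A (P 224) (M
  (v 0) (P 372))) (M (v 1) (P 103))))) (M (v 2) (A (A (P 25) (M (v 0) (N 4))) (M (v 1) (N
  4))))))) (M (v 3) (A (A (A (A (P 12) (M (v 0) (A (P 156) (M (v 0) (P 206))))) (M (v 1) (A (P
  196) (M (v 0) (P 148))))) (M (v 2) (A (A (P 19) (M (v 0) (P 40))) (M (v 1) (P 101))))) (M (v
  3) (A (A (P 4) (M (v 0) (P 40))) (M (v 1) (P 20))))))))))) (M (v 4) (A (A (A (A (A (P 6) (M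
  (v 0) (A (P 126) (M (v 0) (P 220))))) (M (v 1) (A (A (P 126) (M (v 0) (A (P 638) (M (v 0) (P
  421))))) (M (v 1) (A (P 220) (M (v 0) (P 421))))))) (M (v 2) (A (A (A (P 24) (M (v 0) (A (P
  194) (M (v 0) (P 63))))) (M (v 1) (A (A (N 165) (M (v 0) (P 494))) (M (v 1) (A (P 173) (M (v
  0) (P 88))))))) (M (v 2) (A (A (A (P 23) (M (v 0) (P 149))) (M (v 1) (A (A (N 5) (M (v 0) (P
  234))) (M (v 1) (P 176))))) (M (v 2) (A (A (P 11) (M (v 0) (P 4))) (M (v 1) (P 78))))))))) (M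
  (v 3) (A (A (A (A (P 24) (M (v 0) (A (N 165) (M (v 0) (P 173))))) (M (v 1) (A (A (P 194) (M
  (v 0) (A (P 494) (M (v 0) (P 88))))) (M (v 1) (P 63))))) (M (v 2) (A (A (A (P 44) (M (v 0) (P
  150))) (M (v 1) (A (P 150) (M (v 0) (P 436))))) (M (v 2) (A (A (P 29) (M (v 0) (P 176))) (M
  (v 1) (N 57))))))) (M (v 3) (A (A (A (A (P 23) (M (v 0) (A (N 5) (M (v 0) (P 176))))) (M (v
  1) (A (P 149) (M (v 0) (P 234))))) (M (v 2) (A (A (P 29) (M (v 0) (N 57))) (M (v 1) (P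
  176))))) (M (v 3) (A (A (P 11) (M (v 0) (P 78))) (M (v 1) (P 4))))))))) (M (v 4) (A (A (A (A
  (A (P 6) (M (v 0) (A (P 30) (M (v 0) (P 69))))) (M (v 1) (A (A (P 30) (M (v 0) (P 30))) (M (v
  1) (P 69))))) (M (v 2) (A (A (A (P 12) (M (v 0) (P 68))) (M (v 1) (A (P 110) (M (v 0) (P
  57))))) (M (v 2) (A (A (P 14) (M (v 0) (P 22))) (M (v 1) (P 61))))))) (M (v 3) (A (A (A (A (P
  12) (M (v 0) (P 110))) (M (v 1) (A (P 68) (M (v 0) (P 57))))) (M (v 2) (A (A (P 52) (M (v 0)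
  (P 56))) (M (v 1) (P 56))))) (M (v 3) (A (A (P 14) (M (v 0) (P 61))) (M (v 1) (P 22))))))) (M
  (v 4) (A (A (A (A (P 13) (M (v 0) (P 10))) (M (v 1) (P 10))) (M (v 2) (A (P 16) (M (v 1) (P
  17))))) (M (v 3) (A (P 16) (M (v 0) (P 17))))))))))))

/-- Data. -/
def S01 : PE :=
  A (A (A (M (v 1) (A (A (P 104) (M (v 0) (P 271))) (M (v 1) (P 134)))) (M (v 2) (A (A (A (P
  23) (M (v 0) (P 32))) (M (v 1) (A (A (P 399) (M (v 0) (P 115))) (M (v 1) (P 317))))) (M (v 2)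
  (A (A (A (P 67) (M (v 0) (P 20))) (M (v 1) (P 128))) (M (v 2) (P 71))))))) (M (v 3) (A (A (A
  (A (P 29) (M (v 0) (A (P 27) (M (v 0) (P 24))))) (M (v 1) (A (A (P 277) (M (v 0) (P 64))) (M
  (v 1) (P 60))))) (M (v 2) (A (A (A (P 161) (M (v 0) (P 212))) (M (v 1) (P 230))) (M (v 2) (P
  135))))) (M (v 3) (A (A (A (A (P 220) (M (v 0) (P 50))) (M (v 1) (P 187))) (M (v 2) (P 187)))
  (M (v 3) (P 84))))))) (M (v 4) (A (A (A (A (A (P 136) (M (v 0) (A (P 224) (M (v 0) (P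
  134))))) (M (v 1) (A (A (P 356) (M (v 0) (P 286))) (M (v 1) (P 68))))) (M (v 2) (A (A (A (P
  406) (M (v 0) (P 248))) (M (v 1) (P 406))) (M (v 2) (P 365))))) (M (v 3) (A (A (A (A (P 442)
  (M (v 0) (P 119))) (M (v 1) (P 472))) (M (v 2) (P 413))) (M (v 3) (P 297))))) (M (v 4) (A (A
  (A (A (A (P 220) (M (v 0) (P 106))) (M (v 1) (P 50))) (M (v 2) (P 179))) (M (v 3) (P 97))) (M
  (v 4) (P 7))))))

/-- Data. -/
def S02 : PE :=
  A (A (A (A (M (v 0) (A (P 109) (M (v 0) (P 178)))) (M (v 1) (M (v 0) (P 403)))) (M (v 2) (A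
  (A (A (P 181) (M (v 0) (A (P 702) (M (v 0) (P 343))))) (M (v 1) (A (A (P 200) (M (v 0) (P
  371))) (M (v 1) (P 57))))) (M (v 2) (A (A (A (P 489) (M (v 0) (P 552))) (M (v 1) (P 44))) (M
  (v 2) (P 157))))))) (M (v 3) (A (A (A (A (P 30) (M (v 0) (A (P 389) (M (v 0) (P 81))))) (M (v
  1) (M (v 0) (P 180)))) (M (v 2) (A (A (A (P 425) (M (v 0) (P 196))) (M (v 1) (P 204))) (M (v
  2) (P 185))))) (M (v 3) (A (A (A (P 30) (M (v 0) (P 191))) (M (v 2) (P 185))) (M (v 3) (P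
  4))))))) (M (v 4) (A (A (A (A (A (P 62) (M (v 0) (A (P 616) (M (v 0) (P 153))))) (M (v 1) (A
  (P 88) (M (v 0) (P 58))))) (M (v 2) (A (A (A (P 616) (M (v 0) (P 883))) (M (v 1) (P 170))) (M
  (v 2) (P 609))))) (M (v 3) (A (A (A (P 84) (M (v 0) (P 352))) (M (v 2) (P 539))) (M (v 3) (P
  3))))) (M (v 4) (A (A (P 102) (M (v 0) (P 220))) (M (v 2) (P 438))))))

/-- Data. -/
def S03 : PE :=
  A (A (A (M (v 1) (A (A (P 122) (M (v 0) (P 164))) (M (v 1) (P 208)))) (M (v 2) (A (A (A (P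
  17) (M (v 0) (P 24))) (M (v 1) (A (A (P 96) (M (v 0) (P 78))) (M (v 1) (P 57))))) (M (v 2) (A
  (A (A (P 42) (M (v 0) (P 23))) (M (v 1) (P 76))) (M (v 2) (P 36))))))) (M (v 3) (A (A (A (A
  (P 47) (M (v 0) (A (P 36) (M (v 0) (P 8))))) (M (v 1) (A (P 183) (M (v 0) (P 32))))) (M (v 2)
  (A (A (A (P 176) (M (v 0) (P 216))) (M (v 1) (P 97))) (M (v 2) (P 110))))) (M (v 3) (A (A (P
  87) (M (v 0) (P 75))) (M (v 2) (P 21))))))) (M (v 4) (A (A (A (A (A (P 36) (M (v 0) (P 56)))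
  (M (v 1) (P 291))) (M (v 2) (A (A (A (P 56) (M (v 0) (P 55))) (M (v 1) (P 101))) (M (v 2) (P
  87))))) (M (v 3) (A (A (A (P 162) (M (v 0) (P 68))) (M (v 2) (P 111))) (M (v 3) (P 17))))) (M
  (v 4) (A (A (A (P 107) (M (v 0) (P 2))) (M (v 2) (P 33))) (M (v 3) (P 10))))))

/-- Data. -/
def S04 : PE :=
  A (A (A (M (v 0) (A (P 45) (M (v 0) (P 76)))) (M (v 2) (A (A (A (P 177) (M (v 0) (P 409))) (M
  (v 1) (A (A (P 200) (M (v 0) (P 98))) (M (v 1) (P 57))))) (M (v 2) (A (A (A (P 148) (M (v 0)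
  (P 89))) (M (v 1) (P 35))) (M (v 2) (P 8))))))) (M (v 3) (A (A (A (A (P 30) (M (v 0) (A (P
  49) (M (v 0) (P 28))))) (M (v 1) (M (v 0) (P 32)))) (M (v 2) (A (A (A (P 362) (M (v 0) (P
  38))) (M (v 1) (P 204))) (M (v 2) (P 106))))) (M (v 3) (A (A (A (P 30) (M (v 0) (P 6))) (M (v
  2) (P 148))) (M (v 3) (P 4))))))) (M (v 4) (A (A (A (A (A (P 77) (M (v 0) (P 59))) (M (v 1)
  (P 88))) (M (v 2) (A (A (A (P 80) (M (v 0) (P 55))) (M (v 1) (P 101))) (M (v 2) (P 17))))) (M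
  (v 3) (A (A (A (P 119) (M (v 0) (P 68))) (M (v 2) (P 278))) (M (v 3) (P 7))))) (M (v 4) (A (A
  (A (P 37) (M (v 0) (P 24))) (M (v 2) (P 77))) (M (v 3) (P 10))))))

/-- Data. -/
def S31 : PE :=
  A (A (A (M (v 1) (A (A (P 69) (M (v 0) (A (P 13) (M (v 0) (P 208))))) (M (v 1) (A (P 60) (M
  (v 0) (P 240)))))) (M (v 2) (A (A (P 18) (M (v 1) (A (A (P 433) (M (v 0) (P 358))) (M (v 1)
  (P 298))))) (M (v 2) (A (A (P 8) (M (v 1) (P 161))) (M (v 2) (P 6))))))) (M (v 3) (A (A (A (A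
  (P 76) (M (v 0) (A (P 216) (M (v 0) (P 97))))) (M (v 1) (A (A (P 294) (M (v 0) (P 73))) (M (v
  1) (P 44))))) (M (v 2) (A (A (A (P 282) (M (v 0) (P 139))) (M (v 1) (P 184))) (M (v 2) (P
  97))))) (M (v 3) (A (A (A (A (P 293) (M (v 0) (P 41))) (M (v 1) (P 129))) (M (v 2) (P 101)))
  (M (v 3) (P 73))))))) (M (v 4) (A (A (A (A (A (P 187) (M (v 0) (P 4))) (M (v 1) (A (A (P 551)
  (M (v 0) (P 341))) (M (v 1) (P 155))))) (M (v 2) (A (A (P 100) (M (v 1) (P 467))) (M (v 2) (P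
  17))))) (M (v 3) (A (A (A (A (P 562) (M (v 0) (P 119))) (M (v 1) (P 336))) (M (v 2) (P 243)))
  (M (v 3) (P 367))))) (M (v 4) (A (A (P 103) (M (v 1) (P 203))) (M (v 3) (P 114))))))

/-- Data. -/
def S32 : PE :=
  A (A (A (A (M (v 0) (A (P 237) (M (v 0) (P 758)))) (M (v 1) (A (M (v 0) (P 617)) (M (v 1) (M
  (v 0) (P 158)))))) (M (v 2) (A (A (A (P 170) (M (v 0) (A (P 679) (M (v 0) (P 136))))) (M (v
  1) (A (A (P 156) (M (v 0) (P 355))) (M (v 1) (P 69))))) (M (v 2) (A (A (A (P 301) (M (v 0) (P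
  223))) (M (v 1) (P 63))) (M (v 2) (P 136))))))) (M (v 3) (A (A (A (A (P 39) (M (v 0) (A (P
  236) (M (v 0) (P 260))))) (M (v 1) (M (v 0) (P 239)))) (M (v 2) (A (A (A (P 360) (M (v 0) (P
  332))) (M (v 1) (P 130))) (M (v 2) (P 142))))) (M (v 3) (A (A (A (P 25) (M (v 0) (P 129))) (M
  (v 2) (P 158))) (M (v 3) (P 4))))))) (M (v 4) (A (A (A (A (A (P 59) (M (v 0) (A (P 266) (M (v
  0) (P 126))))) (M (v 1) (A (P 16) (M (v 0) (P 173))))) (M (v 2) (A (A (A (P 343) (M (v 0) (P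
  431))) (M (v 1) (P 127))) (M (v 2) (P 316))))) (M (v 3) (A (A (A (P 109) (M (v 0) (P 224)))
  (M (v 2) (P 396))) (M (v 3) (P 29))))) (M (v 4) (A (A (P 105) (M (v 0) (P 92))) (M (v 2) (P
  154))))))

/-- Data. -/
def S33 : PE :=
  A (A (A (M (v 1) (A (A (P 17) (M (v 0) (P 208))) (M (v 1) (P 158)))) (M (v 2) (A (A (P 26) (M
  (v 1) (A (A (P 160) (M (v 0) (P 29))) (M (v 1) (P 69))))) (M (v 2) (A (A (P 5) (M (v 1) (P
  76))) (M (v 2) (P 6))))))) (M (v 3) (A (A (A (A (P 86) (M (v 0) (A (P 232) (M (v 0) (P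
  97))))) (M (v 1) (A (P 54) (M (v 0) (P 27))))) (M (v 2) (A (A (A (P 245) (M (v 0) (P 139)))
  (M (v 1) (P 26))) (M (v 2) (P 46))))) (M (v 3) (A (A (P 83) (M (v 0) (P 100))) (M (v 2) (P
  68))))))) (M (v 4) (A (A (A (A (A (P 66) (M (v 0) (P 138))) (M (v 1) (P 161))) (M (v 2) (A (A
  (P 30) (M (v 1) (P 55))) (M (v 2) (P 14))))) (M (v 3) (A (A (A (P 283) (M (v 0) (P 52))) (M
  (v 2) (P 207))) (M (v 3) (P 39))))) (M (v 4) (A (A (P 10) (M (v 2) (P 4))) (M (v 3) (P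
  15))))))

/-- Data. -/
def S34 : PE :=
  A (A (A (M (v 0) (P 218)) (M (v 2) (A (A (A (P 160) (M (v 0) (P 252))) (M (v 1) (A (A (P 156)
  (M (v 0) (P 29))) (M (v 1) (P 69))))) (M (v 2) (A (P 65) (M (v 1) (P 6))))))) (M (v 3) (A (A
  (A (A (P 39) (M (v 0) (A (P 16) (M (v 0) (P 97))))) (M (v 1) (M (v 0) (P 27)))) (M (v 2) (A
  (A (A (P 239) (M (v 0) (P 6))) (M (v 1) (P 130))) (M (v 2) (P 87))))) (M (v 3) (A (A (A (P
  25) (M (v 0) (P 41))) (M (v 2) (P 88))) (M (v 3) (P 4))))))) (M (v 4) (A (A (A (A (A (P 44)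
  (M (v 0) (P 253))) (M (v 1) (P 16))) (M (v 2) (A (A (P 154) (M (v 1) (P 55))) (M (v 2) (P
  2))))) (M (v 3) (A (A (A (P 36) (M (v 0) (P 52))) (M (v 2) (P 191))) (M (v 3) (P 3))))) (M (v
  4) (A (A (P 7) (M (v 2) (P 4))) (M (v 3) (P 15))))))

/-- The exchange of the variables `a, q` and `e, f`. -/
def swp (i : ℕ) : ℕ :=
  match i with
  | 0 => 1
  | 1 => 0
  | 2 => 3
  | 3 => 2
  | i => i

/-- The exchange of the variables in an expression. -/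
noncomputable def ren (e : PE) : PE :=
  PE.rec (motive := fun _ => PE) (fun i => v (swp i)) (fun k => n k) (fun _ _ a b => add a b)
    (fun _ _ a b => sub a b) (fun _ _ a b => mul a b) e

/-- A sum of products of nonnegative terms. -/
noncomputable def nn (e : PE) : Bool :=
  PE.rec (motive := fun _ => Bool) (fun _ => true)
    (fun k => Int.rec (motive := fun _ => Bool) (fun _ => true) (fun _ => false) k)
    (fun _ _ a b => and a b) (fun _ _ _ _ => false) (fun _ _ a b => and a b) e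

theorem nn_nonneg {y : ℕ → ℝ} (hy : ∀ i, 0 ≤ y i) : ∀ e : PE, nn e = true → 0 ≤ ev y e := by
  intro e
  induction e with
  | v i => intro _; exact hy i
  | n k =>
    intro h
    cases k with
    | ofNat k =>
      show (0 : ℝ) ≤ ((Int.ofNat k : ℤ) : ℝ)
      simp
    | negSucc k => exact absurd h (by show ¬(false = true); simp)
  | add a b iha ihb =>
    intro h
    have h' : (nn a && nn b) = true := h
    rw [Bool.and_eq_true] at h'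
    exact add_nonneg (iha h'.1) (ihb h'.2)
  | sub a b iha ihb =>
    intro h
    exact absurd h (by show ¬(false = true); simp)
  | mul a b iha ihb =>
    intro h
    have h' : (nn a && nn b) = true := h
    rw [Bool.and_eq_true] at h'
    exact mul_nonneg (iha h'.1) (ihb h'.2)

/-- The edges. -/
def xa : PE := v 0
/-- The edges. -/
def xb : PE := P 1
/-- The edges. -/
def xc : PE := v 0 + P 1 + v 2
/-- The edges. -/
def xp : PE := v 0 + P 1 + v 1 + v 2 + v 3 + v 4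
/-- The edges. -/
def xq : PE := v 1
/-- The edges. -/
def xr : PE := P 1 + v 1 + v 3

/-- The weights. -/
noncomputable def W12 : PE := ren W03
/-- The weights. -/
noncomputable def W31 : PE := P 0 - (W03 * xa + W12 * xq + W02 * xp)

/-- The four triangles. -/
def F1 : PE := HP xa xb xc xp xq xr
/-- The four triangles. -/
def F2 : PE := HP xb xq xr xa xp xc
/-- The four triangles. -/
def F3 : PE := HP xa xr xp xc xq xb
/-- The four triangles. -/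
def F4 : PE := HP xc xq xp xa xr xb

/-- The bracket at `i`. -/
noncomputable def Ti : PE := vbP xc xa xp xr xq xb (P 0) W03 W02 (P 0) W12 W31 +
  S01 * F1 + S02 * F2 + S03 * F3 + S04 * F4 - v 2 * v 2 * v 2

/-- The bracket at `j`. -/
noncomputable def Tj : PE := vbP xc xb xq xr xp xa (P 0) W31 W12 (P 0) W02 W03 +
  ren S31 * F2 + ren S32 * F1 + ren S33 * F4 + ren S34 * F3

/-- The bracket at `k`. -/
noncomputable def Tk : PE := vbP xa xb xr xq xp xc W03 W31 (P 0) W12 W02 (P 0) +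
  S31 * F1 + S32 * F2 + S33 * F3 + S34 * F4

/-- The bracket at `m`. -/
noncomputable def Tm : PE := vbP xp xq xr xb xa xc W02 W12 (P 0) W31 W03 (P 0) +
  ren S01 * F2 + ren S02 * F1 + ren S03 * F4 + ren S04 * F3

end Pool.Agent.Helper19.TI
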