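import Pool.Agent.Helper83.EIN.Main

/-!
# Project EIN (MP_06d934_gt): an Einstein metric with a degenerate triangle is Kaehler
-/

set_option autoImplicit false

namespace Pool.Agent.Helper19.TI.Dich

open Pool.Agent.Helper83.EIN Finset

theorem filt : ∀ i j k l : Fin 4, i ≠ j → i ≠ k → i ≠ l → j ≠ k → j ≠ l → k ≠ l →
    (univ.filter fun m : Fin 4 => m ≠ i ∧ m ≠ j) = {k, l} := by
  decide

theorem cover : ∀ i j k l : Fin 4, i ≠ j → i ≠ k → i ≠ l → j ≠ k → j ≠ l → k ≠ l →
    ∀ m, m = i ∨ m = j ∨ m = k ∨ m = l := by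
  decide

theorem fourth : ∀ i j k : Fin 4, i ≠ j → i ≠ k → j ≠ k → ∃ l, i ≠ l ∧ j ≠ l ∧ k ≠ l := by
  decide

/-- The four points lie on a line. -/
theorem alg {u v w1 w2 w3 : ℝ} (hu : 0 < u) (hv : 0 < v)
    (t1 : w1 ≤ w3 + u) (t2 : w2 ≤ w3 + v) (t3 : w3 ≤ w1 + u) (t4 : w3 ≤ w2 + v)
    (t5 : u + v ≤ w1 + w2)
    (hF : 2 * w1 * w2 * w3 + w3 * (w1 ^ 2 + w2 ^ 2 - (u + v) ^ 2) -
      w2 * (w1 ^ 2 + w3 ^ 2 - u ^ 2) - w1 * (w2 ^ 2 + w3 ^ 2 - v ^ 2) = 0) :
    (w1 = w3 + u ∧ (w3 = w2 + v ∨ v = w2 + w3)) ∨ (w2 = w3 + v ∧ (w3 = w1 + u ∨ u = w1 + w3)) := by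
  have e : (u * v + (w1 - w3) * (w2 - w3)) * (w1 + w2 - u - v) +
      (u + v) * ((u - (w1 - w3)) * (v - (w2 - w3))) = 0 := by linarith
  have a1 : 0 ≤ u - (w1 - w3) := by linarith
  have a2 : 0 ≤ v - (w2 - w3) := by linarith
  have a3 : 0 ≤ u + (w1 - w3) := by linarith
  have a4 : 0 ≤ v + (w2 - w3) := by linarith
  have a5 : 0 ≤ w1 + w2 - u - v := by linarith
  have b1 : 0 ≤ u * v + (w1 - w3) * (w2 - w3) := by nlinarith [mul_nonneg a1 a4, mul_nonneg a2 a3]
  have c1 := mul_nonneg b1 a5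
  have c2 : 0 ≤ (u + v) * ((u - (w1 - w3)) * (v - (w2 - w3))) :=
    mul_nonneg (by linarith) (mul_nonneg a1 a2)
  have d1 : (u * v + (w1 - w3) * (w2 - w3)) * (w1 + w2 - u - v) = 0 := by linarith
  have d2 : (u + v) * ((u - (w1 - w3)) * (v - (w2 - w3))) = 0 := by linarith
  rcases mul_eq_zero.1 ((mul_eq_zero.1 d2).resolve_left (by linarith)) with h | h
  · left
    have h1 : w1 = w3 + u := by linarith
    refine ⟨h1, ?_⟩
    rcases mul_eq_zero.1 d1 with h2 | h2
    · left
      have h3 : u * (v + w2 - w3) = 0 := by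
        rw [h1] at h2
        linarith
      have := (mul_eq_zero.1 h3).resolve_left hu.ne'
      linarith
    · right
      linarith
  · right
    have h1 : w2 = w3 + v := by linarith
    refine ⟨h1, ?_⟩
    rcases mul_eq_zero.1 d1 with h2 | h2
    · left
      have h3 : v * (u + w1 - w3) = 0 := by
        rw [h1] at h2
        linarith
      have := (mul_eq_zero.1 h3).resolve_left hv.ne'
      linarith
    · right
      linarith

theorem kaehler_of {x : Fin 4 → Fin 4 → ℝ} (hx : IsMetric x) {i j k l : Fin 4} (hij : i ≠ j)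
    (hik : i ≠ k) (hil : i ≠ l) (hjk : j ≠ k) (hjl : j ≠ l) (hkl : k ≠ l) (a : ℝ)
    (h1 : x i j = x i k + x j k) (h2 : x k l = |a|) (h3 : x i l = |x i k + a|)
    (h4 : x j l = |x j k - a|) : IsKaehler x := by
  classical
  obtain ⟨g, hi, hj, hk, hl⟩ : ∃ g : Fin 4 → ℝ, g i = 0 ∧ g j = x i k + x j k ∧ g k = x i k ∧
      g l = x i k + a := by
    refine ⟨fun m => if m = i then 0 else if m = j then x i k + x j k else if m = k then x i k
      else x i k + a, if_pos rfl, ?_, ?_, ?_⟩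
    · simp only
      rw [if_neg hij.symm, if_pos trivial]
    · simp only
      rw [if_neg hik.symm, if_neg hjk.symm, if_pos trivial]
    · simp only
      rw [if_neg hil.symm, if_neg hjl.symm, if_neg hkl.symm]
  have pik := hx.pos i k hik
  have pjk := hx.pos j k hjk
  have e1 : x i j = |g i - g j| := by
    rw [hi, hj, h1, zero_sub, abs_neg, abs_of_pos (by linarith)]
  have e2 : x i k = |g i - g k| := by
    rw [hi, hk, zero_sub, abs_neg, abs_of_pos pik]
  have e3 : x i l = |g i - g l| := by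
    rw [hi, hl, h3, zero_sub, abs_neg]
  have e4 : x j k = |g j - g k| := by
    rw [hj, hk, add_sub_cancel_left, abs_of_pos pjk]
  have e5 : x j l = |g j - g l| := by
    rw [hj, hl, h4]
    congr 1
    ring
  have e6 : x k l = |g k - g l| := by
    rw [hk, hl, h2, sub_add_cancel_left, abs_neg]
  have d : ∀ m, x m m = |g m - g m| := fun m => by rw [hx.diag, sub_self, abs_zero]
  have sw : ∀ m m', x m m' = |g m - g m'| → x m' m = |g m' - g m| := fun m m' h => by
    rw [hx.symm, abs_sub_comm, h]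
  refine ⟨g, fun m m' => ?_⟩
  have c := cover i j k l hij hik hil hjk hjl hkl
  rcases c m with rfl | rfl | rfl | rfl
  · rcases c m' with rfl | rfl | rfl | rfl
    exacts [d _, e1, e2, e3]
  · rcases c m' with rfl | rfl | rfl | rfl
    exacts [sw _ _ e1, d _, e4, e5]
  · rcases c m' with rfl | rfl | rfl | rfl
    exacts [sw _ _ e2, sw _ _ e4, d _, e6]
  · rcases c m' with rfl | rfl | rfl | rfl
    exacts [sw _ _ e3, sw _ _ e5, sw _ _ e6, d _]

/-- A degenerate triangle makes the metric Kaehler. -/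
theorem kaehler_of_eq {ν : Fin 4 → ℝ} (hν : ∀ i, 0 < ν i) (hν1 : ∑ i, ν i = 1)
    {x : Fin 4 → Fin 4 → ℝ} (hx : IsMetric x) (hE : NormEin ν x)
    (hT : ∀ i j k, i ≠ j → i ≠ k → j ≠ k → x i j ≤ x i k + x j k) {i j k : Fin 4} (hij : i ≠ j)
    (hik : i ≠ k) (hjk : j ≠ k) (h : x i j = x i k + x j k) : IsKaehler x := by
  obtain ⟨l, hil, hjl, hkl⟩ := fourth i j k hij hik hjk
  have E1 := hE i j hij
  have E2 := hE i k hik
  have E3 := hE j k hjk
  rw [filt i j k l hij hik hil hjk hjl hkl, sum_pair hkl] at E1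
  rw [filt i k j l hik hij hil hjk.symm hkl hjl, sum_pair hjl] at E2
  rw [filt j k i l hjk hij.symm hjl hik.symm hkl hil, sum_pair hil] at E3
  have hs : ν i + ν j + ν k + ν l = 1 := by
    rw [← hν1, ← add_sum_erase _ _ (mem_univ i), ← add_sum_erase _ _
      (mem_erase.2 ⟨hij.symm, mem_univ j⟩)]
    have : ((univ.erase i).erase j : Finset (Fin 4)) = {k, l} := by
      rw [← filt i j k l hij hik hil hjk hjl hkl]
      ext m
      simp [and_comm]
    rw [this, sum_pair hkl]
    ring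
  have pik := hx.pos i k hik
  have pjk := hx.pos j k hjk
  have pil := hx.pos i l hil
  have pjl := hx.pos j l hjl
  have pkl := hx.pos k l hkl
  have T1 := hT i l k hil hik hkl.symm
  have T2 := hT j l k hjl hjk hkl.symm
  have T3 := hT k l i hkl hik.symm hil.symm
  have T4 := hT k l j hkl hjk.symm hjl.symm
  have T5 := hT i j l hij hil hjl
  rw [hx.symm l k] at T1 T2
  rw [hx.symm k i, hx.symm l i] at T3
  rw [hx.symm k j, hx.symm l j] at T4
  rw [hx.symm k j] at E2
  rw [hx.symm j i, hx.symm k i] at E3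
  set u := x i k with hu
  set v := x j k with hv
  set w1 := x i l with hw1
  set w2 := x j l with hw2
  set w3 := x k l with hw3
  rw [h] at E1 E2 E3 T5
  have c1 : cs u v (u + v) = -1 := by
    unfold cs
    rw [div_eq_iff (by positivity)]
    ring
  have c2 : cs (u + v) v u = 1 := by
    unfold cs
    rw [div_eq_iff (by positivity)]
    ring
  have c3 : cs (u + v) u v = 1 := by
    unfold cs
    rw [div_eq_iff (by positivity)]
    ring
  rw [c1] at E1
  rw [c2] at E2
  rw [c3] at E3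
  have hl := hν l
  have G : cs w1 w3 u + cs w2 w3 v - cs w1 w2 (u + v) - 1 = 0 := by
    have : ν l * (cs w1 w3 u + cs w2 w3 v - cs w1 w2 (u + v) - 1) = 0 := by linarith
    exact (mul_eq_zero.1 this).resolve_left hl.ne'
  have F : 2 * w1 * w2 * w3 + w3 * (w1 ^ 2 + w2 ^ 2 - (u + v) ^ 2) -
      w2 * (w1 ^ 2 + w3 ^ 2 - u ^ 2) - w1 * (w2 ^ 2 + w3 ^ 2 - v ^ 2) = 0 := by
    unfold cs at G
    field_simp at G
    linarith
  rcases alg pik pjk (by linarith) (by linarith) (by linarith) (by linarith) T5 F with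
    ⟨g1, g2⟩ | ⟨g1, g2⟩
  · refine kaehler_of hx hij hik hil hjk hjl hkl w3 h ?_ ?_ ?_
    · rw [abs_of_pos pkl]
    · change w1 = |u + w3|
      rw [abs_of_pos (by linarith)]
      linarith
    · change w2 = |v - w3|
      rcases g2 with g2 | g2
      · rw [abs_of_neg (by linarith)]
        linarith
      · rw [abs_of_pos (by linarith)]
        linarith
  · refine kaehler_of hx hij hik hil hjk hjl hkl (-w3) h ?_ ?_ ?_
    · rw [abs_neg, abs_of_pos pkl]
    · change w1 = |u + -w3|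
      rcases g2 with g2 | g2
      · rw [abs_of_neg (by linarith)]
        linarith
      · rw [abs_of_pos (by linarith)]
        linarith
    · change w2 = |v - -w3|
      rw [abs_of_pos (by linarith)]
      linarith

/-- An invariant Einstein metric is Kaehler, or all its triangles are non-degenerate. -/
theorem dichotomy (n : Fin 4 → ℕ) (hn : ∀ i, 0 < n i) (x : Fin 4 → Fin 4 → ℝ) (hx : IsMetric x)
    (c : ℝ) (hE : IsEinstein n c x) :
    IsKaehler x ∨ ∀ i j k, i ≠ j → i ≠ k → j ≠ k → x i j < x i k + x j k := by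
  by_contra hcon
  push Not at hcon
  obtain ⟨hK, i, j, k, hij, hik, hjk, hle⟩ := hcon
  apply hK
  obtain ⟨hc, hT, -⟩ := apriori_all n hn x hx c hE
  have heq := le_antisymm (hT i j k hij hik hjk) hle
  have hx' := hx.smul (r := 2 * c) (by linarith)
  have hE' := (ein_iff n hx').1 (scale_half n hx hc hE)
  have hN : 0 < ∑ l, (n l : ℝ) := sum_pos (fun l _ ↦ by exact_mod_cast hn l) ⟨0, mem_univ 0⟩
  have hν : ∀ i, 0 < (fun k ↦ (n k : ℝ) / ∑ l, (n l : ℝ)) i := fun i ↦ by
    have : (0 : ℝ) < n i := by exact_mod_cast hn i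
    positivity
  have hν1 : ∑ i, (fun k ↦ (n k : ℝ) / ∑ l, (n l : ℝ)) i = 1 := by
    simp only
    rw [← sum_div, div_self hN.ne']
  have h := kaehler_of_eq hν hν1 hx' hE' (fun i j k h1 h2 h3 => ?_) hij hik hjk ?_
  · obtain ⟨g, hg⟩ := h
    refine ⟨fun i => g i / (2 * c), fun i j => ?_⟩
    have h2 := hg i j
    simp only [Pi.smul_apply, smul_eq_mul] at h2
    rw [← sub_div, abs_div, ← h2, abs_of_pos (by linarith : (0 : ℝ) < 2 * c)]
    field_simp
  · simp only [Pi.smul_apply, smul_eq_mul]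
    rw [← mul_add]
    exact mul_le_mul_of_nonneg_left (hT i j k h1 h2 h3) (by linarith)
  · simp only [Pi.smul_apply, smul_eq_mul]
    rw [← mul_add, heq]

end Pool.Agent.Helper19.TI.Dich
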