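import Pool.Agent.Helper19.TI.Chain
import Pool.Agent.Helper19.TI.Cones

/-!
# Every non-metric has a multiplier
-/

set_option autoImplicit false

namespace Pool.Agent.Helper19.TI

open PE

theorem ev_P (s : ℕ → ℝ) (k : ℕ) : ev s (P k) = k := by simp [P, ev]

/-- The type `(P3, Q1)`. -/
theorem sx_p3q1 {y0 y1 y2 y3 y4 y5 : ℝ} (h0 : 0 ≤ y0) (h1 : 0 ≤ y1) (h2 : 0 ≤ y2)
    (h3 : 0 ≤ y3) (h4 : 0 ≤ y4) (h5 : 0 ≤ y5) :
    0 ≤ (10 * y0 + 10 * y1 + 154 * y2 + 2 * y3 + 6 * y4 + 10 * y5) *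
        H y5 (y3 + y4) (y0 + y1 + y2 + y2 + y3 + y4 + y5) (y1 + y2 + y4 + y5) (y2 + y3) (y2 + y4) +
      (3 * y0 + 10 * y5) *
        H (y1 + y2 + y4 + y5) (y2 + y3) (y0 + y1 + y2 + y2 + y3 + y4 + y5) y5 (y3 + y4) (y2 + y4) +
      (10 * y1 + 6 * y4 + 10 * y5) *
        H y5 (y2 + y4) (y1 + y2 + y4 + y5) (y0 + y1 + y2 + y2 + y3 + y4 + y5) (y2 + y3)
          (y3 + y4) := by
  have hc : chk [8, 8, 8, 8, 8, 8] 30 (
    (P 10 * v 0 + P 10 * v 1 + P 154 * v 2 + P 2 * v 3 + P 6 * v 4 + P 10 * v 5) *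
        HP (v 5) (v 3 + v 4) (v 0 + v 1 + v 2 + v 2 + v 3 + v 4 + v 5) (v 1 + v 2 + v 4 + v 5)
          (v 2 + v 3) (v 2 + v 4) +
      (P 3 * v 0 + P 10 * v 5) *
        HP (v 1 + v 2 + v 4 + v 5) (v 2 + v 3) (v 0 + v 1 + v 2 + v 2 + v 3 + v 4 + v 5) (v 5)
          (v 3 + v 4) (v 2 + v 4) +
      (P 10 * v 1 + P 6 * v 4 + P 10 * v 5) *
        HP (v 5) (v 2 + v 4) (v 1 + v 2 + v 4 + v 5) (v 0 + v 1 + v 2 + v 2 + v 3 + v 4 + v 5)
          (v 2 + v 3) (v 3 + v 4)) = true := by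
    decide +kernel
  have h := chk_nonneg hc (yl_nonneg [y0, y1, y2, y3, y4, y5] fun x hx => by
    simp only [List.mem_cons, List.not_mem_nil, or_false] at hx
    rcases hx with rfl | rfl | rfl | rfl | rfl | rfl <;> assumption)
  obtain ⟨s, hs⟩ : ∃ s, s = yl [y0, y1, y2, y3, y4, y5] := ⟨_, rfl⟩
  have h' : 0 ≤ (ev s (P 10) * y0 + ev s (P 10) * y1 + ev s (P 154) * y2 + ev s (P 2) * y3 +
        ev s (P 6) * y4 + ev s (P 10) * y5) *
        H y5 (y3 + y4) (y0 + y1 + y2 + y2 + y3 + y4 + y5) (y1 + y2 + y4 + y5) (y2 + y3) (y2 + y4) +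
      (ev s (P 3) * y0 + ev s (P 10) * y5) *
        H (y1 + y2 + y4 + y5) (y2 + y3) (y0 + y1 + y2 + y2 + y3 + y4 + y5) y5 (y3 + y4) (y2 + y4) +
      (ev s (P 10) * y1 + ev s (P 6) * y4 + ev s (P 10) * y5) *
        H y5 (y2 + y4) (y1 + y2 + y4 + y5) (y0 + y1 + y2 + y2 + y3 + y4 + y5) (y2 + y3)
          (y3 + y4) := by
    rw [hs]
    exact h
  simp only [ev_P] at h'
  push_cast at h'
  exact h'

/-- The chain with `d ≤ 0`. -/
theorem sx_chain {a q e f d : ℝ} (ha : 0 ≤ a) (hq : 0 ≤ q) (he : 0 ≤ e) (hf : 0 ≤ f)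
    (hd : 0 ≤ d) :
    0 ≤ (1260 * d * d + 296 * d * f + 504 * d * q + 1136 * d * e + 360 * d + 32 * f * f +
          168 * f * q + 61 * f * e + 64 * f + 168 * q * q + 168 * q) *
        H a 1 (a + 1 + e + d) (a + 1 + q + e + f + d) q (1 + q + f + d) +
      (64 * e + 168 * a + 168 * a * a) *
        H 1 q (1 + q + f + d) a (a + 1 + q + e + f + d) (a + 1 + e + d) := by
  have hc : chk [8, 8, 8, 9, 9] 32 (
    (P 1260 * v 4 * v 4 + P 296 * v 4 * v 3 + P 504 * v 4 * v 1 + P 1136 * v 4 * v 2 +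
      P 360 * v 4 + P 32 * v 3 * v 3 + P 168 * v 3 * v 1 + P 61 * v 3 * v 2 + P 64 * v 3 +
      P 168 * v 1 * v 1 + P 168 * v 1) *
        HP (v 0) (P 1) (v 0 + P 1 + v 2 + v 4) (v 0 + P 1 + v 1 + v 2 + v 3 + v 4) (v 1)
          (P 1 + v 1 + v 3 + v 4) +
      (P 64 * v 2 + P 168 * v 0 + P 168 * v 0 * v 0) *
        HP (P 1) (v 1) (P 1 + v 1 + v 3 + v 4) (v 0) (v 0 + P 1 + v 1 + v 2 + v 3 + v 4)
          (v 0 + P 1 + v 2 + v 4)) = true := by
    decide +kernel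
  have h := chk_nonneg hc (yl_nonneg [a, q, e, f, d] fun x hx => by
    simp only [List.mem_cons, List.not_mem_nil, or_false] at hx
    rcases hx with rfl | rfl | rfl | rfl | rfl <;> assumption)
  obtain ⟨s, hs⟩ : ∃ s, s = yl [a, q, e, f, d] := ⟨_, rfl⟩
  have h' : 0 ≤ (ev s (P 1260) * d * d + ev s (P 296) * d * f + ev s (P 504) * d * q +
        ev s (P 1136) * d * e + ev s (P 360) * d + ev s (P 32) * f * f +
        ev s (P 168) * f * q + ev s (P 61) * f * e + ev s (P 64) * f + ev s (P 168) * q * q +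
        ev s (P 168) * q) *
        H a (ev s (P 1)) (a + ev s (P 1) + e + d) (a + ev s (P 1) + q + e + f + d) q
          (ev s (P 1) + q + f + d) +
      (ev s (P 64) * e + ev s (P 168) * a + ev s (P 168) * a * a) *
        H (ev s (P 1)) q (ev s (P 1) + q + f + d) a (a + ev s (P 1) + q + e + f + d)
          (a + ev s (P 1) + e + d) := by
    rw [hs]
    exact h
  simp only [ev_P] at h'
  push_cast at h'
  exact h'

variable {a b c p q r : ℝ}

theorem H_scale (t : ℝ) : H (t * a) (t * b) (t * c) (t * p) (t * q) (t * r) =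
    t ^ 6 * H a b c p q r := by
  unfold H; ring

/-- The chain. -/
theorem chain (ha : 0 < a) (hb : 0 < b) (hc : 0 < c) (hp : 0 < p) (hq : 0 < q) (hr : 0 < r)
    (h1 : a + b < c) (h2 : c + q < p) (h3 : a + r < p) (h4 : b + q < r) : Good a b c p q r := by
  by_cases k1 : 0 ≤ H a b c p q r
  · exact good_of_H ha hb hc hp hq hr h1 k1
  by_cases k2 : 0 ≤ H b q r a p c
  · exact (good_of_H hb hq hr ha hp hc h4 k2).km.jk.ij.km.jk
  by_cases k3 : 0 ≤ H a r p c q b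
  · exact (good_of_H ha hr hp hc hq hb h3 k3).km.jk.km
  by_cases k4 : 0 ≤ H c q p a r b
  · exact (good_of_H hc hq hp ha hr hb h2 k4).jk.km
  rw [not_le] at k1 k2 k3 k4
  obtain ⟨A, hA⟩ : ∃ A, A = a / b := ⟨_, rfl⟩
  obtain ⟨C, hC⟩ : ∃ C, C = c / b := ⟨_, rfl⟩
  obtain ⟨X, hX⟩ : ∃ X, X = p / b := ⟨_, rfl⟩
  obtain ⟨Q, hQ⟩ : ∃ Q, Q = q / b := ⟨_, rfl⟩
  obtain ⟨R, hR⟩ : ∃ R, R = r / b := ⟨_, rfl⟩
  have ea : a = b * A := by rw [hA]; field_simp
  have ec : c = b * C := by rw [hC]; field_simp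
  have ep : p = b * X := by rw [hX]; field_simp
  have eq : q = b * Q := by rw [hQ]; field_simp
  have er : r = b * R := by rw [hR]; field_simp
  have eb : b = b * 1 := by ring
  have hA0 : 0 < A := by rw [hA]; positivity
  have hQ0 : 0 < Q := by rw [hQ]; positivity
  have sc : ∀ x y : ℝ, b * x < b * y → x < y := fun x y h => lt_of_mul_lt_mul_left h hb.le
  have g1 : A + 1 < C := sc _ _ (by rw [mul_add, ← ea, ← ec]; linarith)
  have g2 : C + Q < X := sc _ _ (by rw [mul_add, ← ec, ← eq, ← ep]; exact h2)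
  have g3 : A + R < X := sc _ _ (by rw [mul_add, ← ea, ← er, ← ep]; exact h3)
  have g4 : 1 + Q < R := sc _ _ (by rw [mul_add, ← eq, ← er]; linarith)
  have b6 : 0 < b ^ 6 := by positivity
  have neg : ∀ x : ℝ, b ^ 6 * x < 0 → x < 0 := fun x hx => by
    by_contra hcon
    exact absurd hx (not_lt.2 (mul_nonneg b6.le (not_lt.1 hcon)))
  have m1 : H A 1 C X Q R < 0 := neg _ (by
    rw [← H_scale, ← ea, ← ec, ← ep, ← eq, ← er, mul_one]; exact k1)
  have m2 : H 1 Q R A X C < 0 := neg _ (by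
    rw [← H_scale, ← ea, ← ec, ← ep, ← eq, ← er, mul_one]; exact k2)
  have m3 : H A R X C Q 1 < 0 := neg _ (by
    rw [← H_scale, ← ea, ← ec, ← ep, ← eq, ← er, mul_one]; exact k3)
  have m4 : H C Q X A R 1 < 0 := neg _ (by
    rw [← H_scale, ← ea, ← ec, ← ep, ← eq, ← er, mul_one]; exact k4)
  suffices hG : Good A 1 C X Q R by
    have := hG.scale hb
    rw [← ea, ← ec, ← ep, ← eq, ← er, mul_one] at this
    exact this
  rcases le_total 0 (X + 1 - C - R) with hd | hd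
  · have e1 : A + 1 + (C - A - 1) = C := by ring
    have e2 : 1 + Q + (R - 1 - Q) = R := by ring
    have e3 : A + 1 + Q + (C - A - 1) + (R - 1 - Q) + (X + 1 - C - R) = X := by ring
    have h := chain_one (a := A) (q := Q) (e := C - A - 1) (f := R - 1 - Q)
      (d := X + 1 - C - R) hA0 hQ0 (by linarith) (by linarith) hd
    rw [e1, e2, e3] at h
    exact h m1 m2 m3 m4
  · exfalso
    have e1 : A + 1 + (X - A - R) + (C + R - X - 1) = C := by ring
    have e2 : 1 + Q + (X - C - Q) + (C + R - X - 1) = R := by ring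
    have e3 : A + 1 + Q + (X - A - R) + (X - C - Q) + (C + R - X - 1) = X := by ring
    have h := sx_chain (a := A) (q := Q) (e := X - A - R) (f := X - C - Q)
      (d := C + R - X - 1) hA0.le hQ0.le (by linarith) (by linarith) (by linarith)
    rw [e1, e2, e3] at h
    have d0 : 0 ≤ C + R - X - 1 := by linarith
    have e0 : 0 ≤ X - A - R := by linarith
    have f0 : 0 ≤ X - C - Q := by linarith
    obtain ⟨d, hd'⟩ : ∃ d, d = C + R - X - 1 := ⟨_, rfl⟩
    obtain ⟨e, he'⟩ : ∃ e, e = X - A - R := ⟨_, rfl⟩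
    obtain ⟨f, hf'⟩ : ∃ f, f = X - C - Q := ⟨_, rfl⟩
    rw [← hd', ← he', ← hf'] at h
    rw [← hd'] at d0
    rw [← he'] at e0
    rw [← hf'] at f0
    have s1 : 0 ≤ 1260 * d * d + 296 * d * f + 504 * d * Q + 1136 * d * e + 360 * d +
        32 * f * f + 168 * f * Q + 61 * f * e + 64 * f + 168 * Q * Q + 168 * Q := by positivity
    have s2 : 0 < 64 * e + 168 * A + 168 * A * A := by positivity
    have t1 := mul_nonpos_of_nonneg_of_nonpos s1 m1.le
    have t2 := mul_neg_of_pos_of_neg s2 m2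
    linarith

/-- The type `(P3, Q1)`. -/
theorem cone_p3q1 (ha : 0 < a) (hb : 0 < b) (hc : 0 < c) (hp : 0 < p) (hq : 0 < q) (hr : 0 < r)
    (h0 : a + b < c) (h1 : p + q < c) (h2 : a + r < p) (h3 : q ≤ b + r) (h4 : b ≤ q + r)
    (h5 : r ≤ b + q) : Good a b c p q r := by
  by_cases k1 : 0 ≤ H a b c p q r
  · exact good_of_H ha hb hc hp hq hr h0 k1
  by_cases k2 : 0 ≤ H p q c a b r
  · exact (good_of_H hp hq hc ha hb hr h1 k2).km
  by_cases k3 : 0 ≤ H a r p c q b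
  · exact (good_of_H ha hr hp hc hq hb h2 k3).km.jk.km
  exfalso
  rw [not_le] at k1 k2 k3
  have h := sx_p3q1 (y0 := c - p - q) (y1 := p - a - r) (y2 := q / 2 + r / 2 - b / 2)
    (y3 := b / 2 + q / 2 - r / 2) (y4 := b / 2 + r / 2 - q / 2) (y5 := a) (by linarith)
    (by linarith) (by linarith) (by linarith) (by linarith) ha.le
  have e2 : (b / 2 + q / 2 - r / 2) + (b / 2 + r / 2 - q / 2) = b := by ring
  have e3 : (c - p - q) + (p - a - r) + (q / 2 + r / 2 - b / 2) + (q / 2 + r / 2 - b / 2) +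
    (b / 2 + q / 2 - r / 2) + (b / 2 + r / 2 - q / 2) + a = c := by ring
  have e4 : (p - a - r) + (q / 2 + r / 2 - b / 2) + (b / 2 + r / 2 - q / 2) + a = p := by ring
  have e5 : (q / 2 + r / 2 - b / 2) + (b / 2 + q / 2 - r / 2) = q := by ring
  have e6 : (q / 2 + r / 2 - b / 2) + (b / 2 + r / 2 - q / 2) = r := by ring
  rw [e2, e3, e4, e5, e6] at h
  have s0 : 0 < 10 * (c - p - q) + 10 * (p - a - r) + 154 * (q / 2 + r / 2 - b / 2) +
    2 * (b / 2 + q / 2 - r / 2) + 6 * (b / 2 + r / 2 - q / 2) + 10 * a := by linarith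
  have s1 : 0 ≤ 3 * (c - p - q) + 10 * a := by linarith
  have s2 : 0 ≤ 10 * (p - a - r) + 6 * (b / 2 + r / 2 - q / 2) + 10 * a := by linarith
  have t0 := mul_neg_of_pos_of_neg s0 k1
  have t1 := mul_nonpos_of_nonneg_of_nonpos s1 k2.le
  have t2 := mul_nonpos_of_nonneg_of_nonpos s2 k3.le
  linarith

/-- Only `Q1`. -/
theorem only_q1 (ha : 0 < a) (hb : 0 < b) (hc : 0 < c) (hp : 0 < p) (hq : 0 < q) (hr : 0 < r)
    (h0 : a + b < c) (h1 : p ≤ c + q) (h2 : c ≤ p + q) (h3 : a + r < p) (h4 : q ≤ b + r)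
    (h5 : b ≤ q + r) (h6 : r ≤ b + q) : Good a b c p q r := by
  by_cases k1 : 0 ≤ H a b c p q r
  · exact good_of_H ha hb hc hp hq hr h0 k1
  by_cases k3 : 0 ≤ H a r p c q b
  · exact (good_of_H ha hr hp hc hq hb h3 k3).km.jk.km
  exfalso
  rw [not_le] at k1 k3
  have h := cone_q1 ha.le h0.le h1 h2 h3.le h4 h5 h6
  have t0 := mul_neg_of_pos_of_neg (mul_pos hp hr) k1
  have t1 := mul_neg_of_pos_of_neg (mul_pos hb hc) k3
  linarith

/-- Only `Q3`. -/
theorem only_q3 (ha : 0 < a) (hb : 0 < b) (hc : 0 < c) (hp : 0 < p) (hq : 0 < q) (hr : 0 < r)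
    (h0 : a + b < c) (h1 : q ≤ c + p) (h2 : c ≤ p + q) (h3 : a + p < r) (h4 : q ≤ b + r)
    (h5 : r ≤ b + q) : Good a b c p q r := by
  by_cases k1 : 0 ≤ H a b c p q r
  · exact good_of_H ha hb hc hp hq hr h0 k1
  by_cases k3 : 0 ≤ H a p r b q c
  · exact (good_of_H ha hp hr hb hq hc h3 k3).jk.ij.km.jk
  exfalso
  rw [not_le] at k1 k3
  have h := cone_q3 ha.le h0.le h1 h2 h3.le h4 h5
  have t0 := mul_neg_of_pos_of_neg (mul_pos hp hp) k1
  have t1 := mul_neg_of_pos_of_neg (mul_pos hb hb) k3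
  linarith

/-- `Q2` and not `P3`. -/
theorem with_q2 (ha : 0 < a) (hb : 0 < b) (hc : 0 < c) (hp : 0 < p) (hq : 0 < q) (hr : 0 < r)
    (h0 : a + b < c) (h1 : p ≤ c + q) (h2 : c ≤ p + q) (h3 : p + r < a) : Good a b c p q r :=
  (good_triv hb hr hq hc hp ha (by linarith) (Or.inl (by linarith)) (Or.inr (by linarith))
    (by linarith) (by linarith)).km.jk.ij.km

/-- Not `P3`. -/
theorem core0 (ha : 0 < a) (hb : 0 < b) (hc : 0 < c) (hp : 0 < p) (hq : 0 < q) (hr : 0 < r)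
    (h0 : a + b < c) (h1 : p ≤ c + q) (h1' : q ≤ c + p) (h2 : c ≤ p + q) :
    Good a b c p q r := by
  by_cases q2 : p + r < a
  · exact with_q2 ha hb hc hp hq hr h0 h1 h2 q2
  by_cases r2 : q + r < b
  · exact (with_q2 hb ha hc hq hp hr (by linarith) h1' (by linarith) r2).ij
  rw [not_lt] at q2 r2
  by_cases q1 : a + r < p
  · by_cases r1 : b + r < q
    · exact good_triv ha hb hc hp hq hr h0 (Or.inl q1.le) (Or.inl r1.le) h1 h1'
    by_cases r3 : b + q < r
    · exact good_triv ha hb hc hp hq hr h0 (Or.inl q1.le) (Or.inr r3.le) h1 h1'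
    exact only_q1 ha hb hc hp hq hr h0 h1 h2 q1 (not_lt.1 r1) r2 (not_lt.1 r3)
  by_cases q3 : a + p < r
  · by_cases r1 : b + r < q
    · exact good_triv ha hb hc hp hq hr h0 (Or.inr q3.le) (Or.inl r1.le) h1 h1'
    by_cases r3 : b + q < r
    · exact good_triv ha hb hc hp hq hr h0 (Or.inr q3.le) (Or.inr r3.le) h1 h1'
    exact only_q3 ha hb hc hp hq hr h0 h1' h2 q3 (not_lt.1 r1) (not_lt.1 r3)
  rw [not_lt] at q1 q3
  by_cases r1 : b + r < q
  · exact (only_q1 hb ha hc hq hp hr (by linarith) h1' (by linarith) r1 q1 q2 q3).ij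
  by_cases r3 : b + q < r
  · exact (only_q3 hb ha hc hq hp hr (by linarith) h1 (by linarith) r3 q1 q3).ij
  rw [not_lt] at r1 r3
  exact good_of_H ha hb hc hp hq hr h0 (cone_none h0.le h2 q1 q3 r1 r3)

/-- `P3` and not (`Q1` or `Q3`) or not (`R1` or `R3`), part 1. -/
theorem p3_q3 (ha : 0 < a) (hb : 0 < b) (hc : 0 < c) (hp : 0 < p) (hq : 0 < q) (hr : 0 < r)
    (h0 : a + b < c) (h2 : p + q < c) (h3 : a + p < r) (h4 : b ≤ q + r) (h5 : q ≤ b + r) :
    Good a b c p q r :=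
  (good_triv ha hp hr hb hq hc h3 (Or.inr (by linarith)) (Or.inr (by linarith)) (by linarith)
    (by linarith)).jk.ij.km.jk

/-- `P3`. -/
theorem core3 (ha : 0 < a) (hb : 0 < b) (hc : 0 < c) (hp : 0 < p) (hq : 0 < q) (hr : 0 < r)
    (h0 : a + b < c) (h2 : p + q < c) : Good a b c p q r := by
  have hQ : (a + r < p) ∨ (a + p < r) ∨ (p + r < a) ∨ (p ≤ a + r ∧ r ≤ a + p ∧ a ≤ p + r) := by
    by_cases k1 : a + r < p
    · exact Or.inl k1
    by_cases k2 : a + p < r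
    · exact Or.inr (Or.inl k2)
    by_cases k3 : p + r < a
    · exact Or.inr (Or.inr (Or.inl k3))
    exact Or.inr (Or.inr (Or.inr ⟨not_lt.1 k1, not_lt.1 k2, not_lt.1 k3⟩))
  have hR : (b + r < q) ∨ (b + q < r) ∨ (q + r < b) ∨ (q ≤ b + r ∧ r ≤ b + q ∧ b ≤ q + r) := by
    by_cases k1 : b + r < q
    · exact Or.inl k1
    by_cases k2 : b + q < r
    · exact Or.inr (Or.inl k2)
    by_cases k3 : q + r < b
    · exact Or.inr (Or.inr (Or.inl k3))
    exact Or.inr (Or.inr (Or.inr ⟨not_lt.1 k1, not_lt.1 k2, not_lt.1 k3⟩))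
  rcases hQ with q1 | q3 | q2 | q0 <;> rcases hR with r1 | r3 | r2 | r0
  · exact good_triv ha hb hc hp hq hr h0 (Or.inl q1.le) (Or.inl r1.le) (by linarith)
      (by linarith)
  · exact good_triv ha hb hc hp hq hr h0 (Or.inl q1.le) (Or.inr r3.le) (by linarith)
      (by linarith)
  · -- the chain
    exact (chain ha hr hp hc hq hb q1 (by linarith) h0 (by linarith)).km.jk.km
  · exact cone_p3q1 ha hb hc hp hq hr h0 h2 q1 r0.1 r0.2.2 r0.2.1
  · exact good_triv ha hb hc hp hq hr h0 (Or.inr q3.le) (Or.inl r1.le) (by linarith)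
      (by linarith)
  · exact good_triv ha hb hc hp hq hr h0 (Or.inr q3.le) (Or.inr r3.le) (by linarith)
      (by linarith)
  · exact (good_triv hp hq hc ha hb hr h2 (Or.inr (by linarith)) (Or.inl (by linarith))
      (by linarith) (by linarith)).km
  · exact p3_q3 ha hb hc hp hq hr h0 h2 q3 r0.2.2 r0.1
  · exact (chain hb hr hq hc hp ha r1 (by linarith) (by linarith) (by linarith)).km.jk.km.ij
  · exact (good_triv hp hq hc ha hb hr h2 (Or.inl (by linarith)) (Or.inr (by linarith))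
      (by linarith) (by linarith)).km
  · exact (good_triv hp hq hc ha hb hr h2 (Or.inl (by linarith)) (Or.inl (by linarith))
      (by linarith) (by linarith)).km
  · exact (cone_p3q1 hp hq hc ha hb hr h2 h0 (by linarith) r0.2.2 r0.1 (by linarith)).km
  · exact (cone_p3q1 hb ha hc hq hp hr (by linarith) (by linarith) r1 q0.1 q0.2.2 q0.2.1).ij
  · exact (p3_q3 hb ha hc hq hp hr (by linarith) (by linarith) r3 q0.2.2 q0.1).ij
  · exact (cone_p3q1 hq hp hc hb ha hr (by linarith) (by linarith) (by linarith) q0.2.2 q0.1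
      (by linarith)).ij.km
  · by_cases k1 : 0 ≤ H a b c p q r
    · exact good_of_H ha hb hc hp hq hr h0 k1
    by_cases k2 : 0 ≤ H p q c a b r
    · exact (good_of_H hp hq hc ha hb hr h2 k2).km
    exfalso
    rw [not_le] at k1 k2
    have h := cone_p3 h0.le h2.le q0.1 q0.2.2 q0.2.1 r0.1 r0.2.2 r0.2.1
    linarith

theorem core (ha : 0 < a) (hb : 0 < b) (hc : 0 < c) (hp : 0 < p) (hq : 0 < q) (hr : 0 < r)
    (h0 : a + b < c) (h1 : p ≤ c + q) (h1' : q ≤ c + p) : Good a b c p q r := by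
  rcases le_or_gt c (p + q) with h2 | h2
  · exact core0 ha hb hc hp hq hr h0 h1 h1' h2
  · exact core3 ha hb hc hp hq hr h0 h2

theorem good_p1 (ha : 0 < a) (hb : 0 < b) (hc : 0 < c) (hp : 0 < p) (hq : 0 < q) (hr : 0 < r)
    (h0 : a + b < c) (h1 : c + q < p) : Good a b c p q r := by
  rcases le_or_gt r (p + a) with h2 | h2
  · exact (core hc hq hp ha hr hb h1 (by linarith) h2).jk.km
  · exact (core hp ha hr hq hb hc h2 (by linarith) (by linarith)).ij.jk.ij.km.jk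

/-- **A multiplier exists for every non-metric.** -/
theorem good (ha : 0 < a) (hb : 0 < b) (hc : 0 < c) (hp : 0 < p) (hq : 0 < q) (hr : 0 < r)
    (h0 : a + b < c) : Good a b c p q r := by
  by_cases h1 : c + q < p
  · exact good_p1 ha hb hc hp hq hr h0 h1
  by_cases h2 : c + p < q
  · exact (good_p1 hb ha hc hq hp hr (by linarith) h2).ij
  exact core ha hb hc hp hq hr h0 (not_lt.1 h1) (not_lt.1 h2)

end Pool.Agent.Helper19.TI
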