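import Pool.Agent.Helper58.EF.Bounds

/-!
# The additive (Kaehler) solutions with four blocks
-/

set_option autoImplicit false

namespace Pool.Agent.Helper19.TI.KE

open Pool.Agent.Helper58.EF

/-- A solution is additive along some order of the four blocks. -/
def Kaehler (x : Fin 4 → Fin 4 → ℝ) : Prop :=
  ∃ s : Equiv.Perm (Fin 4), ∀ i j k : Fin 4, i < j → j < k →
    x (s i) (s k) = x (s i) (s j) + x (s j) (s k)

/-- The additive solution for the standard order. -/
def G (q : Fin 4 → ℝ) : Fin 4 → Fin 4 → ℝ :=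
  mat (q 0 + q 1) (q 0 + 2 * q 1 + q 2) (q 0 + 2 * q 1 + 2 * q 2 + q 3) (q 1 + q 2)
    (q 1 + 2 * q 2 + q 3) (q 2 + q 3)

/-- The additive solution for the order `s`. -/
def K (p : Fin 4 → ℝ) (s : Equiv.Perm (Fin 4)) : Fin 4 → Fin 4 → ℝ :=
  fun a b => G (fun i => p (s i)) (s.symm a) (s.symm b)

theorem bt_two {a b c : ℝ} (hb : 0 < b) (hc : 0 < c) (h : a = b + c) : bt a b c = 2 := by
  subst h
  unfold bt
  rw [div_eq_iff (by positivity)]
  ring

theorem bt_zero {a b c : ℝ} (h : b = a + c) : bt a b c = 0 := by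
  subst h
  unfold bt
  rw [show a ^ 2 - (a + c - c) ^ 2 = 0 by ring, zero_div]

theorem bt_zero' {a b c : ℝ} (h : c = a + b) : bt a b c = 0 := by
  subst h
  unfold bt
  rw [show a ^ 2 - (b - (a + b)) ^ 2 = 0 by ring, zero_div]

theorem G_mem {q : Fin 4 → ℝ} (hq : ∀ i, 0 < q i) : G q ∈ XX q := by
  have h0 := hq 0
  have h1 := hq 1
  have h2 := hq 2
  have h3 := hq 3
  refine mat_mem hq (by positivity) (by positivity) (by positivity) (by positivity)
    (by positivity) (by positivity) ⟨?_, ?_, ?_, ?_, ?_, ?_⟩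
  · rw [bt_zero (by ring), bt_zero (by ring)]
    ring
  · rw [bt_two (by positivity) (by positivity) (by ring), bt_zero (by ring)]
    ring
  · rw [bt_zero' (by ring), bt_zero (by ring)]
    ring
  · rw [bt_two (by positivity) (by positivity) (by ring),
      bt_two (by positivity) (by positivity) (by ring)]
    ring
  · rw [bt_zero' (by ring), bt_two (by positivity) (by positivity) (by ring)]
    ring
  · rw [bt_zero' (by ring), bt_zero' (by ring)]
    ring

theorem transport {q : Fin 4 → ℝ} {x : Fin 4 → Fin 4 → ℝ} (s : Equiv.Perm (Fin 4))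
    (h : x ∈ XX q) : (fun a b => x (s a) (s b)) ∈ XX (fun i => q (s i)) := by
  obtain ⟨h, h0⟩ := h
  refine ⟨⟨fun i => h.hp _, fun i j => h.symm _ _, fun i j hij => h.pos _ _ ?_, ?_⟩,
    fun i => h0 _⟩
  · exact fun he => hij (s.injective he)
  · intro a b c e hd
    obtain ⟨h1, h2, h3, h4, h5, h6⟩ := hd
    exact h.eq (s a) (s b) (s c) (s e) ⟨fun he => h1 (s.injective he), fun he =>
      h2 (s.injective he), fun he => h3 (s.injective he), fun he => h4 (s.injective he),
      fun he => h5 (s.injective he), fun he => h6 (s.injective he)⟩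

theorem K_mem {p : Fin 4 → ℝ} (hp : ∀ i, 0 < p i) (s : Equiv.Perm (Fin 4)) : K p s ∈ XX p := by
  have h := transport s.symm (G_mem (q := fun i => p (s i)) fun i => hp _)
  have e : (fun i => p (s (s.symm i))) = p := by
    funext i
    rw [s.apply_symm_apply]
  rw [e] at h
  exact h

theorem K_kaehler (p : Fin 4 → ℝ) (s : Equiv.Perm (Fin 4)) : Kaehler (K p s) := by
  refine ⟨s, ?_⟩
  intro i j k hij hjk
  simp only [K, s.symm_apply_apply]
  have key : ∀ q : Fin 4 → ℝ, G q i k = G q i j + G q j k := by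
    intro q
    fin_cases i <;> fin_cases j <;> fin_cases k <;>
      first
      | exact absurd hij (by decide)
      | exact absurd hjk (by decide)
      | (simp [G, mat]; ring)
  exact key _

theorem eq_G {q : Fin 4 → ℝ} {y : Fin 4 → Fin 4 → ℝ} (hy : y ∈ XX q)
    (h : ∀ i j k : Fin 4, i < j → j < k → y i k = y i j + y j k) : y = G q := by
  have e := hy.1.eqs
  obtain ⟨e1, -, e3, -, -, e6⟩ := e
  have h012 := h 0 1 2 (by decide) (by decide)
  have h013 := h 0 1 3 (by decide) (by decide)
  have h023 := h 0 2 3 (by decide) (by decide)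
  have h123 := h 1 2 3 (by decide) (by decide)
  rw [bt_zero h012, bt_zero h013] at e1
  rw [bt_zero' (by rw [h012]; ring), bt_zero h123] at e3
  rw [bt_zero' (by rw [h023]; ring), bt_zero' (by rw [h123]; ring)] at e6
  rw [← mat_eta hy]
  unfold G
  congr 1 <;> linarith

theorem eq_K {p : Fin 4 → ℝ} {x : Fin 4 → Fin 4 → ℝ} (hx : x ∈ XX p) (hK : Kaehler x) :
    ∃ s, K p s = x := by
  obtain ⟨s, hs⟩ := hK
  refine ⟨s, ?_⟩
  have h := eq_G (transport s hx) hs
  funext a b
  unfold K
  rw [← h]
  simp only [s.apply_symm_apply]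

/-- Neighbours in the order. -/
def adj (i j : Fin 4) : Bool := i.val + 1 == j.val || j.val + 1 == i.val

def A (s : Equiv.Perm (Fin 4)) : Fin 4 → Fin 4 → Bool := fun a b => adj (s.symm a) (s.symm b)

theorem G_adj {q : Fin 4 → ℝ} (hq : ∀ i, 0 < q i) (i j : Fin 4) (hij : i ≠ j) :
    G q i j = q i + q j ↔ adj i j = true := by
  have h0 := hq 0
  have h1 := hq 1
  have h2 := hq 2
  have h3 := hq 3
  fin_cases i <;> fin_cases j <;>
    first
    | exact absurd rfl hij
    | (refine iff_of_true ?_ rfl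
       simp only [G, mat, Fin.zero_eta, Fin.mk_one, Fin.reduceFinMk, Matrix.cons_val]
       ring)
    | (refine iff_of_true ?_ rfl
       simp only [G, mat, Fin.zero_eta, Fin.mk_one, Fin.reduceFinMk, Matrix.cons_val]
       done)
    | (refine iff_of_false ?_ (by decide)
       simp only [G, mat, Fin.zero_eta, Fin.mk_one, Fin.reduceFinMk, Matrix.cons_val]
       intro h
       linarith)

theorem K_adj {p : Fin 4 → ℝ} (hp : ∀ i, 0 < p i) (s : Equiv.Perm (Fin 4)) (a b : Fin 4)
    (hab : a ≠ b) : K p s a b = p a + p b ↔ A s a b = true := by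
  have h := G_adj (q := fun i => p (s i)) (fun i => hp _) (s.symm a) (s.symm b)
    (fun he => hab (s.symm.injective he))
  simp only [s.apply_symm_apply] at h
  exact h

theorem A_diag (s : Equiv.Perm (Fin 4)) (a : Fin 4) : A s a a = false := by
  unfold A adj
  simp

theorem A_of_K {p : Fin 4 → ℝ} (hp : ∀ i, 0 < p i) {s t : Equiv.Perm (Fin 4)}
    (h : K p s = K p t) : A s = A t := by
  funext a b
  by_cases hab : a = b
  · subst hab
    rw [A_diag, A_diag]
  · have h1 := K_adj hp s a b hab
    have h2 := K_adj hp t a b hab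
    rw [h] at h1
    rw [Bool.eq_iff_iff]
    exact h1.symm.trans h2

def rev : Equiv.Perm (Fin 4) := Fin.revPerm

theorem A_cases : ∀ s t : Equiv.Perm (Fin 4), A s = A t → t = s ∨ t = rev.trans s := by
  decide +kernel

theorem G_rev (q : Fin 4 → ℝ) (i j : Fin 4) :
    G (fun k => q (rev k)) i j = G q (rev i) (rev j) := by
  fin_cases i <;> fin_cases j <;> simp [G, mat, rev, Fin.revPerm, Fin.rev] <;> ring

theorem K_rev (p : Fin 4 → ℝ) (s : Equiv.Perm (Fin 4)) : K p (rev.trans s) = K p s := by
  funext a b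
  unfold K
  have h := G_rev (fun i => p (s i)) ((rev.trans s).symm a) ((rev.trans s).symm b)
  have e : ∀ a, rev ((rev.trans s).symm a) = s.symm a := by
    intro a
    rw [Equiv.symm_trans_apply, Equiv.apply_symm_apply]
  rw [e, e] at h
  exact h

theorem K_iff {p : Fin 4 → ℝ} (hp : ∀ i, 0 < p i) {s t : Equiv.Perm (Fin 4)} :
    K p s = K p t ↔ A s = A t := by
  refine ⟨A_of_K hp, fun h => ?_⟩
  rcases A_cases s t h with h | h
  · rw [h]
  · rw [h, K_rev]

theorem card_A : (Finset.univ.image A).card = 12 := by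
  decide +kernel

/-- There are exactly twelve additive solutions. -/
theorem ncard_kaehler {p : Fin 4 → ℝ} (hp : ∀ i, 0 < p i) :
    {x | x ∈ XX p ∧ Kaehler x}.ncard = 12 := by
  classical
  have h1 : {x | x ∈ XX p ∧ Kaehler x} = K p '' (Set.univ : Set (Equiv.Perm (Fin 4))) := by
    ext x
    constructor
    · rintro ⟨hx, hK⟩
      obtain ⟨s, hs⟩ := eq_K hx hK
      exact ⟨s, trivial, hs⟩
    · rintro ⟨s, -, rfl⟩
      exact ⟨K_mem hp s, K_kaehler p s⟩
  rw [h1]
  have h2 : K p '' (Set.univ : Set (Equiv.Perm (Fin 4))) =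
      ((Finset.univ.image (K p) : Finset (Fin 4 → Fin 4 → ℝ)) : Set (Fin 4 → Fin 4 → ℝ)) := by
    simp
  rw [h2, Set.ncard_coe_finset, ← card_A]
  have hlift : ∀ s, ∃ y, y = K p s := fun s => ⟨_, rfl⟩
  refine Finset.card_bij' (fun x _ => fun a b => if a = b then false else
    decide (x a b = p a + p b)) (fun y hy => K p (Finset.mem_image.1 hy).choose) ?_ ?_ ?_ ?_
  · intro x hx
    obtain ⟨s, -, rfl⟩ := Finset.mem_image.1 hx
    refine Finset.mem_image.2 ⟨s, Finset.mem_univ _, ?_⟩
    funext a b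
    by_cases hab : a = b
    · subst hab
      rw [A_diag, if_pos rfl]
    · rw [if_neg hab, Bool.eq_iff_iff, decide_eq_true_iff]
      exact (K_adj hp s a b hab).symm
  · intro y hy
    exact Finset.mem_image.2 ⟨_, Finset.mem_univ _, rfl⟩
  · intro x hx
    obtain ⟨s, -, rfl⟩ := Finset.mem_image.1 hx
    rw [K_iff hp]
    generalize_proofs h3
    have h4 := h3.choose_spec.2
    rw [h4]
    funext a b
    by_cases hab : a = b
    · subst hab
      rw [A_diag, if_pos rfl]
    · rw [if_neg hab, Bool.eq_iff_iff, decide_eq_true_iff]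
      exact K_adj hp s a b hab
  · intro y hy
    generalize_proofs h3
    have h4 := h3.choose_spec.2
    conv_rhs => rw [← h4]
    funext a b
    by_cases hab : a = b
    · subst hab
      rw [A_diag, if_pos rfl]
    · rw [if_neg hab, Bool.eq_iff_iff, decide_eq_true_iff]
      exact K_adj hp _ a b hab

theorem finite_kaehler (p : Fin 4 → ℝ) : {x | x ∈ XX p ∧ Kaehler x}.Finite := by
  apply (Set.finite_range (K p)).subset
  rintro x ⟨hx, hK⟩
  exact eq_K hx hK

end Pool.Agent.Helper19.TI.KE
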