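import Mathlib

/-!
# Polynomials with nonnegative coefficients, checked by Kronecker substitution

`PE` is the type of polynomial expressions with integer coefficients. `chk rs s e = true` implies that all
coefficients of `e` are nonnegative: the expression is evaluated at powers of `2 ^ s` (one integer
computation), and the coefficients are read off from the binary digits of the result.
-/

set_option autoImplicit false

namespace Pool.Agent.Helper19.TI

open Finset

/-- Polynomial expressions. -/
inductive PE where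
  | v (i : ℕ) : PE
  | n (k : ℤ) : PE
  | add (a b : PE) : PE
  | sub (a b : PE) : PE
  | mul (a b : PE) : PE

namespace PE

instance : Add PE := ⟨add⟩
instance : Sub PE := ⟨sub⟩
instance : Mul PE := ⟨mul⟩

/-- The value in a commutative ring. -/
def ev {R : Type*} [CommRing R] (y : ℕ → R) : PE → R
  | v i => y i
  | n k => (k : R)
  | add a b => ev y a + ev y b
  | sub a b => ev y a - ev y b
  | mul a b => ev y a * ev y b

/-- The value in `ℤ` (for the kernel). -/
noncomputable def evZ (y : ℕ → ℤ) (e : PE) : ℤ :=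
  PE.rec (motive := fun _ => ℤ) (fun i => y i) (fun k => k) (fun _ _ a b => Int.add a b)
    (fun _ _ a b => Int.sub a b) (fun _ _ a b => Int.mul a b) e

/-- A bound for the degree in the variable `i`. -/
noncomputable def deg (i : ℕ) (e : PE) : ℕ :=
  PE.rec (motive := fun _ => ℕ) (fun j => cond (Nat.beq i j) 1 0) (fun _ => 0)
    (fun _ _ a b => cond (Nat.ble a b) b a) (fun _ _ a b => cond (Nat.ble a b) b a)
    (fun _ _ a b => Nat.add a b) e

/-- A bound for the sum of the absolute values of the coefficients. -/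
noncomputable def sz (e : PE) : ℕ :=
  PE.rec (motive := fun _ => ℕ) (fun _ => 1) (fun k => Int.natAbs k) (fun _ _ a b => Nat.add a b)
    (fun _ _ a b => Nat.add a b) (fun _ _ a b => Nat.mul a b) e

/-- All variables have numbers smaller than this. -/
noncomputable def vb (e : PE) : ℕ :=
  PE.rec (motive := fun _ => ℕ) (fun j => Nat.succ j) (fun _ => 0)
    (fun _ _ a b => cond (Nat.ble a b) b a) (fun _ _ a b => cond (Nat.ble a b) b a)
    (fun _ _ a b => cond (Nat.ble a b) b a) e

theorem evZ_eq (y : ℕ → ℤ) (e : PE) : evZ y e = ev y e := by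
  induction e with
  | v i => rfl
  | n k => simp [ev, evZ]
  | add a b iha ihb =>
    show Int.add (evZ y a) (evZ y b) = ev y a + ev y b
    rw [iha, ihb]
    rfl
  | sub a b iha ihb =>
    show Int.sub (evZ y a) (evZ y b) = ev y a - ev y b
    rw [iha, ihb]
    rfl
  | mul a b iha ihb =>
    show Int.mul (evZ y a) (evZ y b) = ev y a * ev y b
    rw [iha, ihb]
    rfl

theorem cond_max (a b : ℕ) : cond (Nat.ble a b) b a = max a b := by
  by_cases h : a ≤ b
  · have : Nat.ble a b = true := by
      rw [Nat.ble_eq]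
      exact h
    rw [this, cond_true, max_eq_right h]
  · have : Nat.ble a b = false := by
      rw [← Bool.not_eq_true, Nat.ble_eq]
      exact h
    rw [this, cond_false, max_eq_left (by omega)]

theorem deg_add (i : ℕ) (a b : PE) : deg i (add a b) = max (deg i a) (deg i b) :=
  cond_max (deg i a) (deg i b)

theorem deg_sub (i : ℕ) (a b : PE) : deg i (sub a b) = max (deg i a) (deg i b) :=
  cond_max (deg i a) (deg i b)

theorem deg_mul (i : ℕ) (a b : PE) : deg i (mul a b) = deg i a + deg i b := rfl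

theorem vb_add (a b : PE) : vb (add a b) = max (vb a) (vb b) := cond_max (vb a) (vb b)

theorem vb_sub (a b : PE) : vb (sub a b) = max (vb a) (vb b) := cond_max (vb a) (vb b)

theorem vb_mul (a b : PE) : vb (mul a b) = max (vb a) (vb b) := cond_max (vb a) (vb b)

theorem map_ev {R S : Type*} [CommRing R] [CommRing S] (φ : R →+* S) (y : ℕ → R) (e : PE) :
    φ (ev y e) = ev (fun i => φ (y i)) e := by
  induction e with
  | v i => rfl
  | n k => simp [ev]
  | add a b iha ihb => simp [ev, iha, ihb]
  | sub a b iha ihb => simp [ev, iha, ihb]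
  | mul a b iha ihb => simp [ev, iha, ihb]

/-- The polynomial. -/
noncomputable def mv (e : PE) : MvPolynomial ℕ ℤ := ev MvPolynomial.X e

/-- The polynomial of the absolute values. -/
noncomputable def av : PE → MvPolynomial ℕ ℕ
  | v i => MvPolynomial.X i
  | n k => MvPolynomial.C k.natAbs
  | add a b => av a + av b
  | sub a b => av a + av b
  | mul a b => av a * av b

theorem ev_eq {R : Type*} [CommRing R] (y : ℕ → R) (e : PE) :
    ev y e = MvPolynomial.eval₂ (Int.castRingHom R) y (mv e) := by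
  have := map_ev (MvPolynomial.eval₂Hom (Int.castRingHom R) y) MvPolynomial.X e
  unfold mv
  rw [MvPolynomial.coe_eval₂Hom] at this
  rw [this]
  simp

theorem abs_coeff (e : PE) :
    ∀ m : ℕ →₀ ℕ, |(mv e).coeff m| ≤ (((av e).coeff m : ℕ) : ℤ) := by
  induction e with
  | v i =>
    intro m
    show |(MvPolynomial.X i : MvPolynomial ℕ ℤ).coeff m| ≤
      (((MvPolynomial.X i : MvPolynomial ℕ ℕ).coeff m : ℕ) : ℤ)
    rw [MvPolynomial.coeff_X', MvPolynomial.coeff_X']
    split_ifs <;> simp
  | n k =>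
    intro m
    show |((k : MvPolynomial ℕ ℤ)).coeff m| ≤
      (((MvPolynomial.C k.natAbs : MvPolynomial ℕ ℕ).coeff m : ℕ) : ℤ)
    have : (k : MvPolynomial ℕ ℤ) = MvPolynomial.C k := by simp
    rw [this, MvPolynomial.coeff_C, MvPolynomial.coeff_C]
    split_ifs <;> simp
  | add a b iha ihb =>
    intro m
    show |(mv a + mv b).coeff m| ≤ (((av a + av b).coeff m : ℕ) : ℤ)
    rw [MvPolynomial.coeff_add, MvPolynomial.coeff_add]
    push_cast
    exact (abs_add_le _ _).trans (add_le_add (iha m) (ihb m))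
  | sub a b iha ihb =>
    intro m
    show |(mv a - mv b).coeff m| ≤ (((av a + av b).coeff m : ℕ) : ℤ)
    rw [MvPolynomial.coeff_sub, MvPolynomial.coeff_add]
    push_cast
    exact (abs_sub _ _).trans (add_le_add (iha m) (ihb m))
  | mul a b iha ihb =>
    intro m
    show |(mv a * mv b).coeff m| ≤ (((av a * av b).coeff m : ℕ) : ℤ)
    rw [MvPolynomial.coeff_mul, MvPolynomial.coeff_mul]
    push_cast
    refine (Finset.abs_sum_le_sum_abs _ _).trans (Finset.sum_le_sum fun x _ => ?_)
    rw [abs_mul]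
    exact mul_le_mul (iha _) (ihb _) (abs_nonneg _) (Int.natCast_nonneg _)

theorem coeff_av_le (e : PE) (m : ℕ →₀ ℕ) : (av e).coeff m ≤ sz e := by
  have h1 : MvPolynomial.eval (fun _ => 1) (av e) = sz e := by
    induction e with
    | v i => simp [av, sz]
    | n k => simp [av, sz]
    | add a b iha ihb =>
      show MvPolynomial.eval _ (av a + av b) = sz a + sz b
      rw [map_add, iha, ihb]
    | sub a b iha ihb =>
      show MvPolynomial.eval _ (av a + av b) = sz a + sz b
      rw [map_add, iha, ihb]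
    | mul a b iha ihb =>
      show MvPolynomial.eval _ (av a * av b) = sz a * sz b
      rw [map_mul, iha, ihb]
  rw [← h1, MvPolynomial.eval_eq]
  by_cases hm : m ∈ (av e).support
  · have := Finset.single_le_sum (f := fun d => (av e).coeff d * ∏ i ∈ d.support, 1 ^ d i)
      (fun d _ => Nat.zero_le _) hm
    simpa using this
  · rw [MvPolynomial.notMem_support_iff.1 hm]
    exact Nat.zero_le _

theorem coeff_lt (e : PE) (m : ℕ →₀ ℕ) : |(mv e).coeff m| ≤ (sz e : ℤ) :=
  (abs_coeff e m).trans (by exact_mod_cast coeff_av_le e m)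

theorem degreeOf_le (i : ℕ) (e : PE) : MvPolynomial.degreeOf i (mv e) ≤ deg i e := by
  classical
  induction e with
  | v j =>
    show MvPolynomial.degreeOf i (MvPolynomial.X j : MvPolynomial ℕ ℤ) ≤ cond (Nat.beq i j) 1 0
    rw [MvPolynomial.degreeOf_X]
    by_cases h : i = j
    · subst h
      simp
    · simp [h]
  | n k =>
    show MvPolynomial.degreeOf i (k : MvPolynomial ℕ ℤ) ≤ 0
    have : (k : MvPolynomial ℕ ℤ) = MvPolynomial.C k := by simp
    rw [this, MvPolynomial.degreeOf_C]
  | add a b iha ihb =>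
    rw [deg_add]
    show MvPolynomial.degreeOf i (mv a + mv b) ≤ _
    exact (MvPolynomial.degreeOf_add_le _ _ _).trans (max_le_max iha ihb)
  | sub a b iha ihb =>
    rw [deg_sub]
    show MvPolynomial.degreeOf i (mv a - mv b) ≤ _
    exact (MvPolynomial.degreeOf_sub_le _ _ _).trans (max_le_max iha ihb)
  | mul a b iha ihb =>
    show MvPolynomial.degreeOf i (mv a * mv b) ≤ deg i a + deg i b
    exact (MvPolynomial.degreeOf_mul_le _ _ _).trans (add_le_add iha ihb)

theorem deg_of_vb (i : ℕ) (e : PE) (h : vb e ≤ i) : deg i e = 0 := by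
  induction e with
  | v j =>
    have h : j + 1 ≤ i := h
    show cond (Nat.beq i j) 1 0 = 0
    have : Nat.beq i j = false := by
      rw [← Bool.not_eq_true]
      exact fun h' => by have := Nat.eq_of_beq_eq_true h'; omega
    rw [this]
    rfl
  | n k => rfl
  | add a b iha ihb =>
    rw [vb_add, max_le_iff] at h
    rw [deg_add, iha h.1, ihb h.2, max_self]
  | sub a b iha ihb =>
    rw [vb_sub, max_le_iff] at h
    rw [deg_sub, iha h.1, ihb h.2, max_self]
  | mul a b iha ihb =>
    rw [vb_mul, max_le_iff] at h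
    rw [deg_mul, iha h.1, ihb h.2]

theorem mem_support_le {e : PE} {m : ℕ →₀ ℕ} (hm : m ∈ (mv e).support) (i : ℕ) :
    m i ≤ deg i e :=
  (MvPolynomial.monomial_le_degreeOf i hm).trans (degreeOf_le i e)

end PE

/-! ### Codes of monomials -/

/-- The weights. -/
def wt (rs : List ℕ) : ℕ → ℕ :=
  List.rec (motive := fun _ => ℕ → ℕ) (fun _ => 0)
    (fun r _ ih i => Nat.rec (motive := fun _ => ℕ) 1 (fun j _ => Nat.mul r (ih j)) i) rs

theorem wt_zero (r : ℕ) (rs : List ℕ) : wt (r :: rs) 0 = 1 := rfl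
theorem wt_succ (r : ℕ) (rs : List ℕ) (i : ℕ) : wt (r :: rs) (i + 1) = r * wt rs i := rfl

theorem code_cons (r : ℕ) (rs : List ℕ) (f : ℕ → ℕ) :
    ∑ i ∈ range (r :: rs).length, wt (r :: rs) i * f i =
      f 0 + r * ∑ i ∈ range rs.length, wt rs i * f (i + 1) := by
  rw [List.length_cons, sum_range_succ', wt_zero, one_mul, add_comm, mul_sum]
  congr 1
  refine sum_congr rfl fun i _ => ?_
  rw [wt_succ, mul_assoc]

theorem code_lt (rs : List ℕ) : ∀ f : ℕ → ℕ, (∀ i, (h : i < rs.length) → f i < rs[i]) →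
    ∑ i ∈ range rs.length, wt rs i * f i < rs.prod := by
  induction rs with
  | nil => intro f _; simp
  | cons r rs ih =>
    intro f hf
    rw [code_cons, List.prod_cons]
    have h1 := ih (fun i => f (i + 1)) fun i hi =>
      hf (i + 1) (by rw [List.length_cons]; omega)
    have h2 : f 0 < r := hf 0 (by simp)
    calc f 0 + r * ∑ i ∈ range rs.length, wt rs i * f (i + 1)
        < r + r * ∑ i ∈ range rs.length, wt rs i * f (i + 1) := by omega
      _ = r * (∑ i ∈ range rs.length, wt rs i * f (i + 1) + 1) := by ring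
      _ ≤ r * rs.prod := Nat.mul_le_mul_left _ h1

theorem code_inj (rs : List ℕ) : ∀ f g : ℕ → ℕ, (∀ i, (h : i < rs.length) → f i < rs[i]) →
    (∀ i, (h : i < rs.length) → g i < rs[i]) →
    ∑ i ∈ range rs.length, wt rs i * f i = ∑ i ∈ range rs.length, wt rs i * g i →
    ∀ i, i < rs.length → f i = g i := by
  induction rs with
  | nil => intro f g _ _ _ i hi; simp at hi
  | cons r rs ih =>
    intro f g hf hg h
    rw [code_cons, code_cons] at h
    have hf0 : f 0 < r := hf 0 (by simp)
    have hg0 : g 0 < r := hg 0 (by simp)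
    have h0 : f 0 = g 0 := by
      have := congrArg (· % r) h
      simpa [Nat.add_mul_mod_self_left, Nat.mod_eq_of_lt hf0, Nat.mod_eq_of_lt hg0] using this
    have h1 : ∑ i ∈ range rs.length, wt rs i * f (i + 1) =
        ∑ i ∈ range rs.length, wt rs i * g (i + 1) := by
      rw [h0] at h
      exact Nat.eq_of_mul_eq_mul_left (by omega) (Nat.add_left_cancel h)
    have h2 := ih (fun i => f (i + 1)) (fun i => g (i + 1))
      (fun i hi => hf (i + 1) (by rw [List.length_cons]; omega))
      (fun i hi => hg (i + 1) (by rw [List.length_cons]; omega)) h1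
    intro i hi
    cases i with
    | zero => exact h0
    | succ i => exact h2 i (by rw [List.length_cons] at hi; omega)

/-! ### Binary digits -/

theorem testBit_sum (s : ℕ) (K : ℕ) : ∀ u : ℕ → ℕ, (∀ k, u k < 2 ^ s) → ∀ k < K, ∀ j < s,
    (∑ i ∈ range K, u i * 2 ^ (s * i)).testBit (s * k + j) = (u k).testBit j := by
  induction K with
  | zero => intro u _ k hk; omega
  | succ K ih =>
    intro u hu k hk j hj
    have e1 : ∑ i ∈ range (K + 1), u i * 2 ^ (s * i) =
        2 ^ s * (∑ i ∈ range K, u (i + 1) * 2 ^ (s * i)) + u 0 := by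
      rw [sum_range_succ', mul_zero, pow_zero, mul_one, mul_sum]
      congr 1
      refine sum_congr rfl fun i _ => ?_
      rw [mul_add, mul_one, pow_add]
      ring
    rw [e1, Nat.testBit_two_pow_mul_add _ (hu 0)]
    cases k with
    | zero =>
      rw [mul_zero, zero_add, if_pos hj]
    | succ k =>
      have h1 : ¬ s * (k + 1) + j < s := by
        have : s ≤ s * (k + 1) := Nat.le_mul_of_pos_right _ (by omega)
        omega
      rw [if_neg h1]
      have h2 : s * (k + 1) + j - s = s * k + j := by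
        rw [mul_add, mul_one]
        omega
      rw [h2]
      exact ih (fun i => u (i + 1)) (fun i => hu _) k (by omega) j hj

/-- The number with the digits `2 ^ (s - 1)`. -/
def HH (s K : ℕ) : ℕ :=
  Nat.mul (Nat.pow 2 (Nat.sub s 1)) (Nat.div (Nat.sub (Nat.pow 2 (Nat.mul s K)) 1)
    (Nat.sub (Nat.pow 2 s) 1))

theorem HH_eq {s : ℕ} (hs : 0 < s) (K : ℕ) :
    HH s K = ∑ i ∈ range K, 2 ^ (s - 1) * 2 ^ (s * i) := by
  have h1 : 2 ≤ 2 ^ s := by
    calc 2 = 2 ^ 1 := rfl
      _ ≤ 2 ^ s := Nat.pow_le_pow_right (by norm_num) hs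
  have h2 := Nat.geomSum_eq h1 K
  show 2 ^ (s - 1) * ((2 ^ (s * K) - 1) / (2 ^ s - 1)) = _
  rw [pow_mul, ← h2, mul_sum]
  refine sum_congr rfl fun i _ => ?_
  rw [pow_mul]

theorem uni_nonneg (f : Polynomial ℤ) (s K : ℕ) (hs : 0 < s)
    (hc : ∀ k, |f.coeff k| < 2 ^ (s - 1)) (hK : ∀ k, K ≤ k → f.coeff k = 0)
    (hM : (f.eval (2 ^ s : ℤ) + HH s K).toNat &&& HH s K = HH s K) : ∀ k, 0 ≤ f.coeff k := by
  have hu0 : ∀ k, 0 ≤ f.coeff k + 2 ^ (s - 1) := fun k => by
    have := (abs_lt.1 (hc k)).1
    linarith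
  have hss : (2 : ℤ) ^ s = 2 ^ (s - 1) + 2 ^ (s - 1) := by
    rw [← two_mul, ← pow_succ']
    congr 1
    omega
  let u : ℕ → ℕ := fun k => (f.coeff k + 2 ^ (s - 1)).toNat
  have hu : ∀ k, u k < 2 ^ s := by
    intro k
    have h1 := (abs_lt.1 (hc k)).2
    have h2 : ((u k : ℕ) : ℤ) = f.coeff k + 2 ^ (s - 1) := Int.toNat_of_nonneg (hu0 k)
    have h3 : ((u k : ℕ) : ℤ) < ((2 ^ s : ℕ) : ℤ) := by
      rw [h2]
      push_cast
      rw [hss]
      linarith
    exact_mod_cast h3
  have hsum : f.eval (2 ^ s : ℤ) + HH s K = ((∑ i ∈ range K, u i * 2 ^ (s * i) : ℕ) : ℤ) := by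
    have hdeg : f.natDegree < K ∨ f = 0 := by
      by_cases hf : f = 0
      · exact Or.inr hf
      · left
        by_contra hcon
        have := hK _ (not_lt.1 hcon)
        exact hf (Polynomial.leadingCoeff_eq_zero.1 this)
    have hev : f.eval (2 ^ s : ℤ) = ∑ i ∈ range K, f.coeff i * (2 ^ s : ℤ) ^ i := by
      rcases hdeg with h | h
      · exact Polynomial.eval_eq_sum_range' h _
      · subst h
        simp
    rw [hev, HH_eq hs]
    push_cast
    rw [← sum_add_distrib]
    refine sum_congr rfl fun i _ => ?_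
    have h2 : ((u i : ℕ) : ℤ) = f.coeff i + 2 ^ (s - 1) := Int.toNat_of_nonneg (hu0 i)
    rw [h2, pow_mul]
    ring
  rw [hsum, Int.toNat_natCast] at hM
  intro k
  rcases Nat.lt_or_ge k K with hk | hk
  swap
  · rw [hK k hk]
  have h1 := testBit_sum s K u hu k hk (s - 1) (by omega)
  have h2 : (HH s K).testBit (s * k + (s - 1)) = true := by
    rw [HH_eq hs]
    have := testBit_sum s K (fun _ => 2 ^ (s - 1))
      (fun _ => Nat.pow_lt_pow_right (by norm_num) (by omega)) k hk (s - 1) (by omega)
    rw [this, Nat.testBit_two_pow_self]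
  have h3 : (∑ i ∈ range K, u i * 2 ^ (s * i)).testBit (s * k + (s - 1)) = true := by
    have h4 := congrArg (fun x => x.testBit (s * k + (s - 1))) hM
    simp only [Nat.testBit_and, h2, Bool.and_true] at h4
    exact h4
  rw [h1] at h3
  have h5 : 2 ^ (s - 1) ≤ u k := by
    by_contra hcon
    rw [Nat.testBit_lt_two_pow (not_le.1 hcon)] at h3
    exact absurd h3 (by simp)
  have h6 : ((u k : ℕ) : ℤ) = f.coeff k + 2 ^ (s - 1) := Int.toNat_of_nonneg (hu0 k)
  have h7 : ((2 ^ (s - 1) : ℕ) : ℤ) ≤ u k := by exact_mod_cast h5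
  rw [h6] at h7
  push_cast at h7
  linarith

/-! ### The check -/

/-- The degree bounds. -/
noncomputable def chkD (e : PE) (rs : List ℕ) : ℕ → Bool :=
  List.rec (motive := fun _ => ℕ → Bool) (fun _ => true)
    (fun r _ ih i => and (Nat.blt (e.deg i) r) (ih (Nat.succ i))) rs

theorem chkD_spec (e : PE) (rs : List ℕ) : ∀ i₀ : ℕ, chkD e rs i₀ = true →
    ∀ i, (h : i < rs.length) → e.deg (i₀ + i) < rs[i] := by
  induction rs with
  | nil => intro i₀ _ i hi; simp at hi
  | cons r rs ih =>
    intro i₀ h i hi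
    have h' : (Nat.blt (e.deg i₀) r && chkD e rs (i₀ + 1)) = true := h
    rw [Bool.and_eq_true] at h'
    cases i with
    | zero =>
      have := h'.1
      rw [Nat.blt_eq] at this
      simpa using this
    | succ i =>
      have := ih (i₀ + 1) h'.2 i (by rw [List.length_cons] at hi; omega)
      rw [show i₀ + (i + 1) = i₀ + 1 + i by ring]
      simpa using this

/-- The product of a list (for the kernel). -/
def lprod (rs : List ℕ) : ℕ := List.rec (motive := fun _ => ℕ) 1 (fun r _ a => Nat.mul r a) rs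

theorem lprod_eq (rs : List ℕ) : lprod rs = rs.prod := by
  induction rs with
  | nil => rfl
  | cons r rs ih =>
    rw [List.prod_cons, ← ih]
    rfl

/-- The check that all coefficients are nonnegative. -/
noncomputable def chk (rs : List ℕ) (s : ℕ) (e : PE) : Bool :=
  and (and (Nat.blt 0 s) (and (Nat.ble e.vb rs.length) (chkD e rs 0)))
    (and (Nat.blt e.sz (Nat.pow 2 (Nat.sub s 1)))
      (Nat.beq (Nat.land (Int.toNat (Int.add
        (e.evZ fun i => Int.ofNat (Nat.pow 2 (Nat.mul s (wt rs i)))) (Int.ofNat (HH s (lprod rs)))))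
        (HH s (lprod rs))) (HH s (lprod rs))))

theorem coeff_nonneg {rs : List ℕ} {s : ℕ} {e : PE} (h : chk rs s e = true) (m : ℕ →₀ ℕ) :
    0 ≤ (PE.mv e).coeff m := by
  classical
  unfold chk at h
  rw [Bool.and_eq_true, Bool.and_eq_true, Bool.and_eq_true, Bool.and_eq_true, Nat.blt_eq,
    Nat.ble_eq, Nat.blt_eq, Nat.beq_eq] at h
  obtain ⟨⟨hs, hvb, hD⟩, hsz, hM⟩ := h
  have hdeg : ∀ i, (h : i < rs.length) → e.deg i < rs[i] := fun i hi => by
    have := chkD_spec e rs 0 hD i hi
    rwa [zero_add] at this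
  -- box
  have hbox : ∀ d ∈ (PE.mv e).support, (∀ i, (h : i < rs.length) → d i < rs[i]) ∧
      ∀ i, rs.length ≤ i → d i = 0 := by
    intro d hd
    refine ⟨fun i hi => lt_of_le_of_lt (PE.mem_support_le hd i) (hdeg i hi), fun i hi => ?_⟩
    have := PE.mem_support_le hd i
    rw [PE.deg_of_vb i e (hvb.trans hi)] at this
    omega
  let code : (ℕ →₀ ℕ) → ℕ := fun d => ∑ i ∈ range rs.length, wt rs i * d i
  have hinj : ∀ d ∈ (PE.mv e).support, ∀ d' ∈ (PE.mv e).support, code d = code d' → d = d' := by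
    intro d hd d' hd' hc
    ext i
    rcases Nat.lt_or_ge i rs.length with hi | hi
    · exact code_inj rs d d' (hbox d hd).1 (hbox d' hd').1 hc i hi
    · rw [(hbox d hd).2 i hi, (hbox d' hd').2 i hi]
  -- the polynomial in one variable
  let f : Polynomial ℤ := PE.ev (fun i => Polynomial.X ^ wt rs i) e
  have hf : f = ∑ d ∈ (PE.mv e).support, Polynomial.C ((PE.mv e).coeff d) *
      Polynomial.X ^ code d := by
    show PE.ev _ e = _
    rw [PE.ev_eq, MvPolynomial.eval₂_eq]
    refine sum_congr rfl fun d hd => ?_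
    congr 1
    simp only [← pow_mul]
    rw [Finset.prod_pow_eq_pow_sum]
    congr 1
    refine Finset.sum_subset ?_ fun i _ hi => ?_
    · intro i hi
      rw [mem_range]
      by_contra hcon
      exact (Finsupp.mem_support_iff.1 hi) ((hbox d hd).2 i (not_lt.1 hcon))
    · rw [Finsupp.notMem_support_iff.1 hi, mul_zero]
  have hcoef : ∀ k, f.coeff k =
      ∑ d ∈ (PE.mv e).support, if k = code d then (PE.mv e).coeff d else 0 := by
    intro k
    rw [hf, Polynomial.finsetSum_coeff]
    exact sum_congr rfl fun d _ => Polynomial.coeff_C_mul_X_pow _ _ _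
  have hcd : ∀ d ∈ (PE.mv e).support, f.coeff (code d) = (PE.mv e).coeff d := by
    intro d hd
    rw [hcoef, sum_eq_single d, if_pos rfl]
    · intro d' hd' hne
      rw [if_neg fun h => hne (hinj d' hd' d hd h.symm)]
    · intro h
      exact absurd hd h
  have hdic : ∀ k, (∃ d ∈ (PE.mv e).support, code d = k) ∨ f.coeff k = 0 := by
    intro k
    by_cases h : ∃ d ∈ (PE.mv e).support, code d = k
    · exact Or.inl h
    · right
      rw [hcoef]
      refine sum_eq_zero fun d hd => ?_
      rw [if_neg fun h' => h ⟨d, hd, h'.symm⟩]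
  have hszZ : (e.sz : ℤ) < 2 ^ (s - 1) := by exact_mod_cast hsz
  have hc : ∀ k, |f.coeff k| < 2 ^ (s - 1) := by
    intro k
    rcases hdic k with ⟨d, hd, rfl⟩ | h
    · rw [hcd d hd]
      exact lt_of_le_of_lt (PE.coeff_lt e d) hszZ
    · rw [h, abs_zero]
      positivity
  have hK : ∀ k, lprod rs ≤ k → f.coeff k = 0 := by
    intro k hk
    rcases hdic k with ⟨d, hd, rfl⟩ | h
    · exfalso
      have := code_lt rs d (hbox d hd).1
      rw [← lprod_eq] at this
      exact absurd hk (not_le.2 this)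
    · exact h
  have hev : f.eval (2 ^ s : ℤ) =
      e.evZ fun i => Int.ofNat (Nat.pow 2 (Nat.mul s (wt rs i))) := by
    have h1 := PE.map_ev (Polynomial.evalRingHom (2 ^ s : ℤ)) (fun i => Polynomial.X ^ wt rs i) e
    rw [PE.evZ_eq]
    refine h1.trans ?_
    congr 1
    funext i
    show ((Polynomial.X : Polynomial ℤ) ^ wt rs i).eval (2 ^ s : ℤ) = ((2 ^ (s * wt rs i) : ℕ) : ℤ)
    rw [Polynomial.eval_pow, Polynomial.eval_X, ← pow_mul]
    push_cast
    rfl
  have hM' : (f.eval (2 ^ s : ℤ) + HH s (lprod rs)).toNat &&& HH s (lprod rs) =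
      HH s (lprod rs) := by
    rw [hev]
    exact hM
  have hall := uni_nonneg f s (lprod rs) hs hc hK hM'
  by_cases hm : m ∈ (PE.mv e).support
  · rw [← hcd m hm]
    exact hall _
  · rw [MvPolynomial.notMem_support_iff.1 hm]

/-- The expression is nonnegative for nonnegative values of the variables. -/
theorem chk_nonneg {rs : List ℕ} {s : ℕ} {e : PE} (h : chk rs s e = true) {y : ℕ → ℝ}
    (hy : ∀ i, 0 ≤ y i) : 0 ≤ PE.ev y e := by
  rw [PE.ev_eq, MvPolynomial.eval₂_eq]
  refine sum_nonneg fun d _ => mul_nonneg ?_ (prod_nonneg fun i _ => pow_nonneg (hy i) _)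
  have := coeff_nonneg h d
  simpa using this

end Pool.Agent.Helper19.TI
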