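import Pool.Agent.Helper19.TI.Good

/-!
# Multipliers for functions on the edges of the complete graph on four vertices

If a positive function `x` on the edges violates a triangle inequality then there are weights `w` on the
edges with `∑ w x = 0` such that for every vertex `l` the bracket
`∑_{e ∋ l} w e + ∑_{e = {i, j} ∌ l} w e (x_{ij}² - (x_{li} - x_{lj})²) / (2 x_{li} x_{lj})` is nonnegative, and
positive for some `l`.
-/

set_option autoImplicit false

namespace Pool.Agent.Helper19.TI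

/-- `1 - cos` of the angle opposite to the side `x` of a triangle with the sides `x, y, z`. -/
noncomputable def bt (x y z : ℝ) : ℝ := (x ^ 2 - (y - z) ^ 2) / (2 * y * z)

/-- The sum over the edges of the complete graph on four vertices. -/
def es (f : Fin 4 → Fin 4 → ℝ) : ℝ := f 0 1 + f 0 2 + f 0 3 + f 1 2 + f 1 3 + f 2 3

/-- The bracket at the vertex `l`. -/
noncomputable def bk (x w : Fin 4 → Fin 4 → ℝ) (l : Fin 4) : ℝ :=
  es fun i j => w i j * if l = i ∨ l = j then 1 else bt (x i j) (x l i) (x l j)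

/-- The bracket at a vertex with the edges `x, y, z`; `u, v, w` are the opposite edges. -/
noncomputable def nb (x y z u v w X Y Z U V W : ℝ) : ℝ :=
  X + Y + Z + U * bt u y z + V * bt v z x + W * bt w x y

theorem vb_eq {x y z : ℝ} (hx : 0 < x) (hy : 0 < y) (hz : 0 < z) (u v w X Y Z U V W : ℝ) :
    vb x y z u v w X Y Z U V W = 2 * x * y * z * nb x y z u v w X Y Z U V W := by
  unfold vb nb bt
  field_simp
  ring

/-- The values of a symmetric function on the edges. -/
def sf (i j k m : Fin 4) (A B C P Q R : ℝ) : Fin 4 → Fin 4 → ℝ := fun s t =>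
  if (s = i ∧ t = j) ∨ (s = j ∧ t = i) then C else
  if (s = i ∧ t = k) ∨ (s = k ∧ t = i) then A else
  if (s = j ∧ t = k) ∨ (s = k ∧ t = j) then B else
  if (s = i ∧ t = m) ∨ (s = m ∧ t = i) then P else
  if (s = j ∧ t = m) ∨ (s = m ∧ t = j) then Q else
  if (s = k ∧ t = m) ∨ (s = m ∧ t = k) then R else 0

theorem sf_symm (i j k m : Fin 4) (A B C P Q R : ℝ) (s t : Fin 4) :
    sf i j k m A B C P Q R s t = sf i j k m A B C P Q R t s := by
  have h : ∀ u v : Fin 4, ((s = u ∧ t = v) ∨ (s = v ∧ t = u)) =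
      ((t = u ∧ s = v) ∨ (t = v ∧ s = u)) := by
    intro u v
    rw [and_comm (a := t = u), and_comm (a := t = v), or_comm]
  unfold sf
  simp only [h]

theorem es_eq {f : Fin 4 → Fin 4 → ℝ} (hf : ∀ i j, f i j = f j i) {i j k m : Fin 4} (hij : i ≠ j)
    (hik : i ≠ k) (hjk : j ≠ k) (him : i ≠ m) (hjm : j ≠ m) (hkm : k ≠ m) :
    es f = f i j + f i k + f i m + f j k + f j m + f k m := by
  have h10 := hf 1 0
  have h20 := hf 2 0
  have h30 := hf 3 0
  have h21 := hf 2 1
  have h31 := hf 3 1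
  have h32 := hf 3 2
  unfold es
  fin_cases i <;> fin_cases j <;> first
    | exact absurd rfl hij
    | (fin_cases k <;> first
      | exact absurd rfl hik
      | exact absurd rfl hjk
      | (fin_cases m <;> first
        | exact absurd rfl him
        | exact absurd rfl hjm
        | exact absurd rfl hkm
        | (simp only [Fin.zero_eta, Fin.mk_one, Fin.reduceFinMk] <;> linarith)))

theorem bt_symm (x y z : ℝ) : bt x y z = bt x z y := by
  unfold bt
  ring

theorem bk_eq {x w : Fin 4 → Fin 4 → ℝ} (hx : ∀ i j, x i j = x j i) (hw : ∀ i j, w i j = w j i)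
    {i j k m : Fin 4} (hij : i ≠ j) (hik : i ≠ k) (hjk : j ≠ k) (him : i ≠ m) (hjm : j ≠ m)
    (hkm : k ≠ m) : bk x w i = nb (x i j) (x i k) (x i m) (x k m) (x j m) (x j k)
      (w i j) (w i k) (w i m) (w k m) (w j m) (w j k) := by
  unfold bk
  rw [es_eq (i := i) (j := j) (k := k) (m := m) ?_ hij hik hjk him hjm hkm]
  · have n1 : ¬(i = j ∨ i = k) := fun h => h.elim hij hik
    have n2 : ¬(i = j ∨ i = m) := fun h => h.elim hij him
    have n3 : ¬(i = k ∨ i = m) := fun h => h.elim hik him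
    have t1 : i = i ∨ j = i := Or.inl rfl
    have n1' : ¬(i = j ∨ k = i) := fun h => h.elim hij (fun h => hik h.symm)
    have n2' : ¬(i = j ∨ m = i) := fun h => h.elim hij (fun h => him h.symm)
    have n3' : ¬(i = k ∨ m = i) := fun h => h.elim hik (fun h => him h.symm)
    simp only [true_or, if_true, if_neg n1, if_neg n2, if_neg n3]
    unfold nb
    rw [bt_symm (x j m) (x i m) (x i j)]
    ring
  · intro s t
    rw [hw s t, hx s t, bt_symm (x t s)]
    congr 1
    by_cases h : i = s ∨ i = t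
    · rw [if_pos h, if_pos h.symm]
    · rw [if_neg h, if_neg fun h' => h h'.symm]

theorem key {x : Fin 4 → Fin 4 → ℝ} (hs : ∀ i j, x i j = x j i) (hp : ∀ i j, i ≠ j → 0 < x i j)
    {i j k m : Fin 4} (hij : i ≠ j) (hik : i ≠ k) (hjk : j ≠ k) (him : i ≠ m) (hjm : j ≠ m)
    (hkm : k ≠ m) (h : x i k + x j k < x i j) :
    ∃ w : Fin 4 → Fin 4 → ℝ, (∀ i j, w i j = w j i) ∧ (es fun i j => w i j * x i j) = 0 ∧
      (∀ l, 0 ≤ bk x w l) ∧ ∃ l, 0 < bk x w l := by
  have ha := hp i k hik
  have hb := hp j k hjk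
  have hc := hp i j hij
  have hpp := hp i m him
  have hq := hp j m hjm
  have hr := hp k m hkm
  obtain ⟨wa, wb, wc, wp, wq, wr, h0, h1, h2, h3, h4, h5⟩ := good ha hb hc hpp hq hr h
  rw [vb_eq hc ha hpp] at h1 h5
  rw [vb_eq hc hb hq] at h2 h5
  rw [vb_eq ha hb hr] at h3 h5
  rw [vb_eq hpp hq hr] at h4 h5
  have p1 : 0 < 2 * x i j * x i k * x i m := by positivity
  have p2 : 0 < 2 * x i j * x j k * x j m := by positivity
  have p3 : 0 < 2 * x i k * x j k * x k m := by positivity
  have p4 : 0 < 2 * x i m * x j m * x k m := by positivity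
  have n1 := nonneg_of_mul_nonneg_right h1 p1
  have n2 := nonneg_of_mul_nonneg_right h2 p2
  have n3 := nonneg_of_mul_nonneg_right h3 p3
  have n4 := nonneg_of_mul_nonneg_right h4 p4
  obtain ⟨w, hwdef⟩ : ∃ w, w = sf i j k m wa wb wc wp wq wr := ⟨_, rfl⟩
  have hw : ∀ s t, w s t = w t s := by rw [hwdef]; exact sf_symm i j k m wa wb wc wp wq wr
  have wij : w i j = wc := by rw [hwdef]; simp [sf]
  have wik : w i k = wa := by rw [hwdef]; simp [sf, hjk.symm, hij]
  have wjk : w j k = wb := by rw [hwdef]; simp [sf, hij.symm, hjk, hik.symm]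
  have wim : w i m = wp := by rw [hwdef]; simp [sf, hjm.symm, hij, hkm.symm, hik]
  have wjm : w j m = wq := by
    rw [hwdef]; simp [sf, hij.symm, him.symm, hjk, hkm.symm]
  have wkm : w k m = wr := by
    rw [hwdef]; simp [sf, him.symm, hjk.symm, hkm.symm, hik.symm, hjm.symm]
  have e1 := bk_eq hs hw hij hik hjk him hjm hkm
  have e2 := bk_eq hs hw hij.symm hjk hik hjm him hkm
  have e3 := bk_eq hs hw hik.symm hjk.symm hij hkm him hjm
  have e4 := bk_eq hs hw him.symm hjm.symm hij hkm.symm hik hjk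
  rw [hs j i, hw j i] at e2
  rw [hs k i, hs k j, hw k i, hw k j] at e3
  rw [hs m i, hs m j, hs m k, hw m i, hw m j, hw m k] at e4
  rw [wij, wik, wjk, wim, wjm, wkm] at e1 e2 e3 e4
  rw [← e1] at n1 h5
  rw [← e2] at n2 h5
  rw [← e3] at n3 h5
  rw [← e4] at n4 h5
  refine ⟨w, hw, ?_, ?_, ?_⟩
  · rw [es_eq (fun s t => by rw [hs s t, hw s t]) hij hik hjk him hjm hkm, wij, wik, wjk, wim,
      wjm, wkm]
    linarith
  · intro l
    have hl : l = i ∨ l = j ∨ l = k ∨ l = m := by
      revert hij hik hjk him hjm hkm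
      clear * -
      revert i j k m l
      decide
    rcases hl with rfl | rfl | rfl | rfl
    · exact n1
    · exact n2
    · exact n3
    · exact n4
  · by_contra hcon
    push Not at hcon
    have c1 := mul_nonpos_of_nonneg_of_nonpos p1.le (hcon i)
    have c2 := mul_nonpos_of_nonneg_of_nonpos p2.le (hcon j)
    have c3 := mul_nonpos_of_nonneg_of_nonpos p3.le (hcon k)
    have c4 := mul_nonpos_of_nonneg_of_nonpos p4.le (hcon m)
    linarith

/-- **Multipliers.** -/
theorem exists_mult (x : Fin 4 → Fin 4 → ℝ) (hs : ∀ i j, x i j = x j i)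
    (hp : ∀ i j, i ≠ j → 0 < x i j)
    (h : ∃ i j k : Fin 4, i ≠ j ∧ i ≠ k ∧ j ≠ k ∧ x i k + x j k < x i j) :
    ∃ w : Fin 4 → Fin 4 → ℝ, (∀ i j, w i j = w j i) ∧ (es fun i j => w i j * x i j) = 0 ∧
      (∀ l, 0 ≤ bk x w l) ∧ ∃ l, 0 < bk x w l := by
  obtain ⟨i, j, k, hij, hik, hjk, h⟩ := h
  obtain ⟨m, him, hjm, hkm⟩ : ∃ m : Fin 4, i ≠ m ∧ j ≠ m ∧ k ≠ m := by
    clear h
    revert i j k
    decide
  exact key hs hp hij hik hjk him hjm hkm h

end Pool.Agent.Helper19.TI
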